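import Pool.Agent.EVN.P.Defs

/-!
EVN block P, module Avg (helper45): THE AVERAGE OVER THE TWO WIDTHS.

PAPER PROOF. `S = ∑ k ∈ range (4 R + 1), α k`. For `m, m' ∈ [R, 2 R)` (`R^2` pairs) `QA (5 R) m m'` is contained in the union of four sets: left-right (`POpp`; enlarge `5 R` to `6 R`), right-left (the same by exchanging the two components),
right-right (`PSame`, `v = o`, `M = m'`), left-left (`PLL`, then `PSame`, `v = o'`, `a = -m'`, `b = m`, `M = m + 1`). Sum over `m, m'`: `∑ m ind (tl u ≤ m) α (m - tl u) ≤ S`, `∑ m' ind (tr c u ≤ m') α (m' - tr c u) ≤ S`,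
`∑ m ind (tr c u ≤ m + 1) α (m + 1 - tr c u) ≤ S`; the inner sum of `PSame` is `≤ W` by the hypothesis with `D = M + tl u` (`R ≤ D ≤ 8 R`). `Mk R (fun _ _ => A) = MM R * A` (`V c.1` is nodup of length `c.1.length + 1`). Hence
`R^2 P n ≤ C (8 MM S^2 + 16 R MM S W + R^2 err)`. (`Antitone α` is not needed.)
-/

namespace Pool.Agent.EVN.Av

open Pool.Agent.Hhelper14.SAW Pool.Agent.HHP Pool.Agent.HEP Pool.Agent.PLY.G Pool.Agent.BEX.F
open scoped ENNReal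

theorem Mk_const (R : ℕ) (A : ℝ≥0∞) : (Mk R fun _ _ => A) = MM R * A := by
  unfold Mk MM
  rw [← ENNReal.tsum_mul_right]
  refine tsum_congr fun c => ?_
  have h1 : (V c.1).length = c.1.length + 1 := vs_length _ _ _
  rw [Finset.sum_const, List.toFinset_card_of_nodup c.2.br.1.1, h1, nsmul_eq_mul]
  ring

lemma Mk_mono (R : ℕ) {f g : Blk → ℤ × ℤ → ℝ≥0∞} (h : ∀ c, ∀ u ∈ V c.1, f c u ≤ g c u) : Mk R f ≤ Mk R g := by
  unfold Mk
  refine ENNReal.tsum_le_tsum fun c => ?_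
  gcongr with u hu
  exact h c u (List.mem_toFinset.1 hu)

lemma Mk_sum {ι : Type*} (R : ℕ) (s : Finset ι) (f : ι → Blk → ℤ × ℤ → ℝ≥0∞) :
    ∑ i ∈ s, Mk R (f i) = Mk R fun c u => ∑ i ∈ s, f i c u := by
  unfold Mk
  rw [← Summable.tsum_finsetSum fun _ _ => ENNReal.summable]
  refine tsum_congr fun c => ?_
  rw [← Finset.mul_sum, ← Finset.mul_sum, Finset.sum_comm]

lemma Mk_mul (R : ℕ) (A : ℝ≥0∞) (f : Blk → ℤ × ℤ → ℝ≥0∞) : (Mk R fun c u => f c u * A) = Mk R f * A := by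
  unfold Mk
  rw [← ENNReal.tsum_mul_right]
  refine tsum_congr fun c => ?_
  rw [← Finset.sum_mul]
  ring

/-- One average. -/
lemma avg1 (f : ℕ → ℝ≥0∞) {R : ℕ} (_hR : 1 ≤ R) (t : ℕ) {d : ℕ} (hd : d ≤ 1) :
    ∑ m ∈ Finset.Ico R (2 * R), ind (t ≤ m + d) * f (m + d - t) ≤ ∑ k ∈ Finset.range (4 * R + 1), f k := by
  classical
  calc ∑ m ∈ Finset.Ico R (2 * R), ind (t ≤ m + d) * f (m + d - t)
      = ∑ m ∈ (Finset.Ico R (2 * R)).filter (t ≤ · + d), f (m + d - t) := by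
        rw [Finset.sum_filter]
        refine Finset.sum_congr rfl fun m _ => ?_
        split_ifs with h
        · rw [ind_true h, one_mul]
        · rw [ind_false h, zero_mul]
    _ = ∑ k ∈ ((Finset.Ico R (2 * R)).filter (t ≤ · + d)).image (· + d - t), f k := by
        rw [Finset.sum_image]
        intro a ha b hb hab
        rw [Finset.mem_coe, Finset.mem_filter] at ha hb
        have h1 := ha.2
        have h2 := hb.2
        have h3 : a + d - t = b + d - t := hab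
        omega
    _ ≤ ∑ k ∈ Finset.range (4 * R + 1), f k := by
        refine Finset.sum_le_sum_of_subset fun k hk => ?_
        obtain ⟨m, hm, rfl⟩ := Finset.mem_image.1 hk
        rw [Finset.mem_filter, Finset.mem_Ico] at hm
        rw [Finset.mem_range]
        omega

/-! ### sums over sets of pairs -/

lemma SQ_mono {n n' J : ℕ} {Q Q' : Set (List (ℤ × ℤ) × List (ℤ × ℤ))} (h : Q ⊆ Q') : SQ n n' J Q ≤ SQ n n' J Q' := by
  unfold SQ
  exact ENNReal.tsum_mono_subtype (fun q : List (ℤ × ℤ) × List (ℤ × ℤ) => uf n J q.1 * uf n' J q.2) h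

lemma SQ_union {n n' J : ℕ} (Q Q' : Set (List (ℤ × ℤ) × List (ℤ × ℤ))) :
    SQ n n' J (Q ∪ Q') ≤ SQ n n' J Q + SQ n n' J Q' := by
  unfold SQ
  exact ENNReal.tsum_union_le (fun q : List (ℤ × ℤ) × List (ℤ × ℤ) => uf n J q.1 * uf n' J q.2) Q Q'

/-- Exchange of the two paths. -/
lemma SQ_swap {n n' J : ℕ} (X Y : Set (List (ℤ × ℤ))) (v : ℤ × ℤ) :
    SQ n n' J (Qp X Y v) ≤ SQ n' n J (Qp Y X v) := by
  unfold SQ
  let φ : Qp X Y v → Qp Y X v := fun q => ⟨(q.1.2, q.1.1), q.2.2.1, q.2.1, fun z h1 h2 => q.2.2.2 z h2 h1⟩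
  have hφ : Function.Injective φ := by
    rintro ⟨⟨a, b⟩, h⟩ ⟨⟨a', b'⟩, h'⟩ e
    have e1 := congrArg Subtype.val e
    simp only [φ, Prod.mk.injEq] at e1
    obtain ⟨e1, e2⟩ := e1
    subst e1
    subst e2
    rfl
  refine le_trans (le_of_eq ?_)
    (ENNReal.tsum_comp_le_tsum_of_injective hφ fun q : Qp Y X v => uf n' J q.1.1 * uf n J q.1.2)
  exact tsum_congr fun q => mul_comm _ _

lemma Bx_mono {D D' : ℕ} (h : D ≤ D') : Bx D ⊆ Bx D' := by
  intro z hz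
  have h1 := hz.1
  have h2 := hz.2
  have h3 : (D : ℤ) ≤ D' := by exact_mod_cast h
  exact ⟨by linarith, by linarith⟩

lemma XR_mono {D D' : ℕ} (h : D ≤ D') (v : ℤ × ℤ) (a b : ℤ) : XR D v a b ⊆ XR D' v a b := by
  rintro η ⟨y, η', h1, h2, h3, h4, h5, h6, h7⟩
  exact ⟨y, η', h1, h2, h3, h4, h5, h6, fun z hz => ⟨Bx_mono h (h7 z hz).1, (h7 z hz).2⟩⟩

lemma XL_mono {D D' : ℕ} (h : D ≤ D') (v : ℤ × ℤ) (a b : ℤ) : XL D v a b ⊆ XL D' v a b := by
  rintro η ⟨y, η', h1, h2, h3, h4, h5, h6, h7⟩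
  exact ⟨y, η', h1, h2, h3, h4, h5, h6, fun z hz => ⟨Bx_mono h (h7 z hz).1, (h7 z hz).2⟩⟩

lemma Qp_mono {X X' Y Y' : Set (List (ℤ × ℤ))} (hX : X ⊆ X') (hY : Y ⊆ Y') (v : ℤ × ℤ) : Qp X Y v ⊆ Qp X' Y' v :=
  fun _ h => ⟨hX h.1, hY h.2.1, h.2.2⟩

/-- The four kinds of pairs. -/
lemma SQ_QA (n n' J D m m' : ℕ) : SQ n n' J (QA D m m') ≤
    SQ n n' J (Qp (XL D o (-(m : ℤ)) m') (XR D o (-(m : ℤ)) m') o) + SQ n n' J (Qp (XR D o (-(m : ℤ)) m') (XL D o (-(m : ℤ)) m') o) +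
    (SQ n n' J (Qp (XR D o (-(m : ℤ)) m') (XR D o (-(m : ℤ)) m') o) +
      SQ n n' J (Qp (XL D o (-(m : ℤ)) m') (XL D o (-(m : ℤ)) m') o)) := by
  refine le_trans (SQ_mono (Q' := (Qp (XL D o (-(m : ℤ)) m') (XR D o (-(m : ℤ)) m') o ∪ Qp (XR D o (-(m : ℤ)) m') (XL D o (-(m : ℤ)) m') o) ∪
    (Qp (XR D o (-(m : ℤ)) m') (XR D o (-(m : ℤ)) m') o ∪ Qp (XL D o (-(m : ℤ)) m') (XL D o (-(m : ℤ)) m') o)) ?_) ?_
  · rintro q ⟨h1 | h1, h2 | h2, h3⟩
    · exact Or.inr (Or.inr ⟨h1, h2, h3⟩)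
    · exact Or.inl (Or.inl ⟨h1, h2, h3⟩)
    · exact Or.inl (Or.inr ⟨h1, h2, h3⟩)
    · exact Or.inr (Or.inl ⟨h1, h2, h3⟩)
  · exact (SQ_union _ _).trans (add_le_add (SQ_union _ _) (SQ_union _ _))

/-- The average of the opposite pairs. -/
lemma opp_avg (𝓛 : Law) (L : ℕ) {R : ℕ} (hR : 1 ≤ R) {α : ℕ → ℝ≥0∞} (hα : ∀ k, ak 𝓛 L k ≤ α k) :
    ∑ m ∈ Finset.Ico R (2 * R), ∑ m' ∈ Finset.Ico R (2 * R),
      (Mk R fun c u => (ind (tl u ≤ m) * ak 𝓛 L (m - tl u)) * (ind (tr c u ≤ m') * ak 𝓛 L (m' - tr c u))) ≤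
      MM R * ((∑ k ∈ Finset.range (4 * R + 1), α k) * ∑ k ∈ Finset.range (4 * R + 1), α k) := by
  rw [Finset.sum_congr rfl fun m _ => Mk_sum R _ _, Mk_sum, ← Mk_const]
  refine Mk_mono R fun c u _ => ?_
  rw [Finset.sum_congr rfl fun m _ => (Finset.mul_sum _ _ _).symm, ← Finset.sum_mul]
  refine mul_le_mul' ?_ ?_
  · refine le_trans (Finset.sum_le_sum fun m _ => ?_) (avg1 α hR (tl u) (d := 0) (by omega))
    exact mul_le_mul' le_rfl (hα _)
  · refine le_trans (Finset.sum_le_sum fun m _ => ?_) (avg1 α hR (tr c u) (d := 0) (by omega))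
    exact mul_le_mul' le_rfl (hα _)

/-- The average of the pairs on the same side. -/
lemma same_avg (𝓛 : Law) (L : ℕ) {R : ℕ} (hR : 1 ≤ R) {α : ℕ → ℝ≥0∞} (hα : ∀ k, ak 𝓛 L k ≤ α k) {W : ℝ≥0∞}
    (hW : ∀ D, R ≤ D → D ≤ 8 * R → ∑ s ∈ Finset.range (4 * R + 1), WW 𝓛 L s (D + s) ≤ W) {d : ℕ} (hd : d ≤ 1) :
    ∑ m ∈ Finset.Ico R (2 * R), (Mk R fun c u => ind (tl u ≤ 2 * R ∧ tr c u ≤ m + d) *
      (ak 𝓛 L (m + d - tr c u) * ∑ s ∈ Finset.range (4 * R + 1), WW 𝓛 L s (m + d + tl u + s))) ≤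
      MM R * ((∑ k ∈ Finset.range (4 * R + 1), α k) * W) := by
  rw [Mk_sum, ← Mk_const]
  refine Mk_mono R fun c u _ => ?_
  rw [Finset.sum_mul]
  refine le_trans (Finset.sum_le_sum (g := fun m => (ind (tr c u ≤ m + d) * α (m + d - tr c u)) * W) fun m hm => ?_) ?_
  · rw [Finset.mem_Ico] at hm
    by_cases h : tl u ≤ 2 * R ∧ tr c u ≤ m + d
    · rw [ind_true h, ind_true h.2, one_mul, one_mul]
      exact mul_le_mul' (hα _) (hW _ (by omega) (by omega))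
    · rw [ind_false h, zero_mul]
      exact zero_le
  · rw [← Finset.sum_mul, ← Finset.sum_mul]
    exact mul_le_mul' (avg1 α hR (tr c u) hd) le_rfl

/-- The four sums for given widths. -/
lemma four (h2 : POpp) (h3 : PSame) (h4 : PLL) {n n' J R L m m' : ℕ} {𝓛 : Law} (hd : Dom2 n J 𝓛) (hd' : Dom2 n' J 𝓛)
    (hR : 1 ≤ R) (hL : 1369 * R ^ 2 ≤ L) (hm : m ∈ Finset.Ico R (2 * R)) (hm' : m' ∈ Finset.Ico R (2 * R)) :
    SQ n n' J (QA (5 * R) m m') ≤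
      8 * (Mk R fun c u => (ind (tl u ≤ m) * ak 𝓛 L (m - tl u)) * (ind (tr c u ≤ m') * ak 𝓛 L (m' - tr c u))) +
      (8 * (Mk R fun c u => ind (tl u ≤ 2 * R ∧ tr c u ≤ m' + 0) *
        (ak 𝓛 L (m' + 0 - tr c u) * ∑ s ∈ Finset.range (4 * R + 1), WW 𝓛 L s (m' + 0 + tl u + s))) +
       8 * (Mk R fun c u => ind (tl u ≤ 2 * R ∧ tr c u ≤ m + 1) *
        (ak 𝓛 L (m + 1 - tr c u) * ∑ s ∈ Finset.range (4 * R + 1), WW 𝓛 L s (m + 1 + tl u + s)))) := by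
  rw [Finset.mem_Ico] at hm hm'
  have h56 : 5 * R ≤ 6 * R := by omega
  have hFo : F0 o = 0 := rfl
  have hFo' : F0 o' = -2 := rfl
  refine (SQ_QA n n' J (5 * R) m m').trans (add_le_add ?_ (add_le_add ?_ ?_))
  · set X := Mk R fun c u => (ind (tl u ≤ m) * ak 𝓛 L (m - tl u)) * (ind (tr c u ≤ m') * ak 𝓛 L (m' - tr c u)) with hX
    have a1 : SQ n n' J (Qp (XL (5 * R) o (-(m : ℤ)) m') (XR (5 * R) o (-(m : ℤ)) m') o) ≤ 4 * X :=
      (SQ_mono (Qp_mono (XL_mono h56 _ _ _) (XR_mono h56 _ _ _) _)).trans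
        (h2 n n' J R L m m' 𝓛 hd hd' hR hL (by omega) (by omega))
    have a2 : SQ n n' J (Qp (XR (5 * R) o (-(m : ℤ)) m') (XL (5 * R) o (-(m : ℤ)) m') o) ≤ 4 * X :=
      (SQ_swap _ _ _).trans ((SQ_mono (Qp_mono (XL_mono h56 _ _ _) (XR_mono h56 _ _ _) _)).trans
        (h2 n' n J R L m m' 𝓛 hd' hd hR hL (by omega) (by omega)))
    refine (add_le_add a1 a2).trans (le_of_eq ?_)
    ring
  · refine (SQ_mono (Qp_mono (XR_mono h56 _ _ _) (XR_mono h56 _ _ _) _)).trans ?_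
    exact h3 n n' J R L (m' + 0) (-(m : ℤ)) m' o 𝓛 hd hd' hR hL (Or.inl rfl) (by rw [hFo]; simp) (by rw [hFo]; omega)
      (by rw [hFo]; omega) (by rw [hFo]; omega)
  · refine (h4 n n' J R m m' hR (by omega) (by omega)).trans ?_
    exact h3 n n' J R L (m + 1) (-(m' : ℤ)) m o' 𝓛 hd hd' hR hL (Or.inr rfl) (by rw [hFo']; push_cast; omega)
      (by rw [hFo']; omega) (by rw [hFo']; omega) (by rw [hFo']; omega)

/-- **(P-main)** from the four contracts. -/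
theorem pmain_of (h1 : PUp) (h2 : POpp) (h3 : PSame) (h4 : PLL) : PMain := by
  obtain ⟨C1, K1, n1, h1⟩ := h1
  refine ⟨16 * C1, max K1 1369, n1, ?_⟩
  intro n n' J R L 𝓛 α W hA hnn hE hR hL _ hα hW
  have hd : Dom2 n J 𝓛 := fun S => by rw [hE S]; exact le_self_add
  have hd' : Dom2 n' J 𝓛 := fun S => by rw [hE S]; exact le_add_self
  have hL' : 1369 * R ^ 2 ≤ L := (Nat.mul_le_mul_right _ (le_max_right K1 1369)).trans hL
  set S := ∑ k ∈ Finset.range (4 * R + 1), α k with hS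
  set r : ℝ≥0∞ := (R : ℝ≥0∞) with hr
  set err : ℝ≥0∞ := (R : ℝ≥0∞) ^ K1 / J with herr
  have hr0 : r ≠ 0 := by
    rw [hr]
    exact_mod_cast (by omega : R ≠ 0)
  have hrt : r ≠ ⊤ := ENNReal.natCast_ne_top R
  have hcard : (Finset.Ico R (2 * R)).card = R := by
    rw [Nat.card_Ico]
    omega
  have key : ∀ m ∈ Finset.Ico R (2 * R), ∀ m' ∈ Finset.Ico R (2 * R), PP n n' ≤ C1 * (
      (8 * (Mk R fun c u => (ind (tl u ≤ m) * ak 𝓛 L (m - tl u)) * (ind (tr c u ≤ m') * ak 𝓛 L (m' - tr c u))) +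
      (8 * (Mk R fun c u => ind (tl u ≤ 2 * R ∧ tr c u ≤ m' + 0) *
        (ak 𝓛 L (m' + 0 - tr c u) * ∑ s ∈ Finset.range (4 * R + 1), WW 𝓛 L s (m' + 0 + tl u + s))) +
       8 * (Mk R fun c u => ind (tl u ≤ 2 * R ∧ tr c u ≤ m + 1) *
        (ak 𝓛 L (m + 1 - tr c u) * ∑ s ∈ Finset.range (4 * R + 1), WW 𝓛 L s (m + 1 + tl u + s))))) + err) := by
    intro m hm m' hm'
    have e1 := Finset.mem_Ico.1 hm
    have e2 := Finset.mem_Ico.1 hm'
    refine (h1 n n' J R m m' hA hnn hR e1.1 (by omega) e2.1 (by omega)).trans ?_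
    gcongr
    exact four h2 h3 h4 hd hd' hR hL' hm hm'
  have tot : r * (r * PP n n') ≤ C1 * (8 * (MM R * (S * S)) + (8 * (r * (MM R * (S * W))) + 8 * (r * (MM R * (S * W)))) + r * (r * err)) := by
    have e1 : r * (r * PP n n') = ∑ m ∈ Finset.Ico R (2 * R), ∑ m' ∈ Finset.Ico R (2 * R), PP n n' := by
      rw [Finset.sum_const, Finset.sum_const, hcard, nsmul_eq_mul, nsmul_eq_mul]
    rw [e1]
    refine (Finset.sum_le_sum fun m hm => Finset.sum_le_sum fun m' hm' => key m hm m' hm').trans ?_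
    rw [Finset.sum_congr rfl fun m _ => (Finset.mul_sum _ _ _).symm, ← Finset.mul_sum]
    gcongr
    rw [Finset.sum_congr rfl fun m _ => Finset.sum_add_distrib, Finset.sum_add_distrib,
      Finset.sum_congr rfl fun m _ => Finset.sum_add_distrib, Finset.sum_add_distrib,
      Finset.sum_congr rfl fun m _ => Finset.sum_add_distrib, Finset.sum_add_distrib]
    refine add_le_add (add_le_add ?_ (add_le_add ?_ ?_)) ?_
    · rw [Finset.sum_congr rfl fun m _ => (Finset.mul_sum _ _ _).symm, ← Finset.mul_sum]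
      gcongr
      exact opp_avg 𝓛 L hR hα
    · rw [Finset.sum_congr rfl fun m _ => (Finset.mul_sum _ _ _).symm, ← Finset.mul_sum, Finset.sum_const, hcard,
        nsmul_eq_mul]
      gcongr
      exact same_avg 𝓛 L hR hα hW (by omega)
    · rw [Finset.sum_congr rfl fun m _ => Finset.sum_const _, hcard, Finset.sum_congr rfl fun m _ => nsmul_eq_mul _ _,
        ← Finset.mul_sum, ← Finset.mul_sum]
      calc r * (8 * _) ≤ r * (8 * (MM R * (S * W))) := by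
            gcongr
            exact same_avg 𝓛 L hR hα hW le_rfl
        _ = _ := by ring
    · rw [Finset.sum_const, Finset.sum_const, hcard, nsmul_eq_mul, nsmul_eq_mul]
  have hinv : r⁻¹ * r = 1 := ENNReal.inv_mul_cancel hr0 hrt
  calc PP n n' = (r⁻¹ * r) * ((r⁻¹ * r) * PP n n') := by rw [hinv, one_mul, one_mul]
    _ = r⁻¹ * r⁻¹ * (r * (r * PP n n')) := by ring
    _ ≤ r⁻¹ * r⁻¹ * (C1 * (8 * (MM R * (S * S)) + (8 * (r * (MM R * (S * W))) + 8 * (r * (MM R * (S * W)))) + r * (r * err))) := by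
        gcongr
    _ = C1 * (8 * (MM R * (S * r⁻¹) * (S * r⁻¹)) + 16 * ((r⁻¹ * r) * (MM R * (S * r⁻¹) * W)) + (r⁻¹ * r) * ((r⁻¹ * r) * err)) := by
        ring
    _ = C1 * (8 * (MM R * (S * r⁻¹) * (S * r⁻¹)) + 16 * (MM R * (S * r⁻¹) * W) + err) := by
        rw [hinv, one_mul, one_mul, one_mul]
    _ ≤ C1 * (16 * (MM R * (S * r⁻¹) * (S * r⁻¹)) + 16 * (MM R * (S * r⁻¹) * W) + 16 * ((R : ℝ≥0∞) ^ max K1 1369 / J)) := by
        gcongr
        · norm_num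
        · rw [herr]
          have h5 : (R : ℝ≥0∞) ^ K1 ≤ (R : ℝ≥0∞) ^ max K1 1369 :=
            pow_le_pow_right₀ (by exact_mod_cast hR) (le_max_left _ _)
          calc (R : ℝ≥0∞) ^ K1 / J ≤ (R : ℝ≥0∞) ^ max K1 1369 / J := ENNReal.div_le_div_right h5 _
            _ ≤ 16 * ((R : ℝ≥0∞) ^ max K1 1369 / J) := le_mul_of_one_le_left zero_le (by norm_num)
    _ = ((16 * C1 : ℕ) : ℝ≥0∞) * (MM R * (S / R) * (S / R + W) + (R : ℝ≥0∞) ^ max K1 1369 / J) := by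
        rw [div_eq_mul_inv S]
        push_cast
        ring

end Pool.Agent.EVN.Av

namespace Pool.Agent.EVN

open scoped ENNReal

theorem Mk_const (R : ℕ) (A : ℝ≥0∞) : (Mk R fun _ _ => A) = MM R * A := Av.Mk_const R A

/-- **(P-main)** from the four contracts. -/
theorem pmain_of (h1 : PUp) (h2 : POpp) (h3 : PSame) (h4 : PLL) : PMain := Av.pmain_of h1 h2 h3 h4

end Pool.Agent.EVN
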