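import Pool.Agent.EVN.P.Defs

/-!
EVN block P, module LL: BOTH LEFT = BOTH RIGHT FROM `o'`.

PAPER PROOF. `g z = (-1, 0) - z` maps `o` to `o'`, lattice points to lattice points, neighbours to neighbours, `F0 (g z) = -2 - F0 z`. `q ↦ (q.1.map g, q.2.map g)` is an injective map of the first set of pairs into the second one (`F0 z < 3 m'` and `hon z` give
`F0 z ≤ 3 m' - 2`), and `uf n J (η.map g) = uf n J η` by `ASym` (`Sy.ro`) for `η = y :: η'` (`headI`, `tail` of a map; `{z | z ∈ η'.map g} = g '' {z | z ∈ η'}`).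
-/

namespace Pool.Agent.EVN

open Pool.Agent.Hhelper14.SAW Pool.Agent.HHP Pool.Agent.HEP Pool.Agent.PLY.G Pool.Agent.BEX.F
open scoped ENNReal

/-- The rotation by 180 degrees which exchanges `o` and `o'`. -/
def gro (z : ℤ × ℤ) : ℤ × ℤ := (-1, 0) - z

lemma gro_inj : Function.Injective gro := fun _ _ h => sub_right_injective h

lemma gro_o : gro o = o' := rfl

lemma gro_F0 (z : ℤ × ℤ) : F0 (gro z) = -2 - F0 z := by
  obtain ⟨a, b⟩ := z
  simp only [gro, F0, Prod.mk_sub_mk]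
  ring

lemma gro_snd (z : ℤ × ℤ) : (gro z).2 = -z.2 := by
  obtain ⟨a, b⟩ := z
  simp only [gro, Prod.mk_sub_mk]
  ring

lemma gro_hon {z : ℤ × ℤ} (h : hon z) : hon (gro z) := by
  obtain ⟨a, b⟩ := z
  simp only [gro, hon, Prod.mk_sub_mk] at *
  omega

lemma gro_adj {x y : ℤ × ℤ} (h : Adj x y) : Adj (gro x) (gro y) := by
  refine ⟨gro_hon h.1, gro_hon h.2.1, ?_⟩
  have h1 := h.2.2
  obtain ⟨a, b⟩ := x
  obtain ⟨c, e⟩ := y
  simp only [gro, U, Prod.mk_sub_mk] at *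
  omega

lemma gro_chain {η : List (ℤ × ℤ)} (h : HChain η) : HChain (η.map gro) := by
  show List.IsChain Adj (η.map gro)
  rw [List.isChain_map]
  exact h.imp fun _ _ hh => gro_adj hh

lemma chain_hon_all {η : List (ℤ × ℤ)} : ∀ {y : ℤ × ℤ}, η ≠ [] → HChain (y :: η) → ∀ z ∈ y :: η, hon z := by
  induction η with
  | nil => intro y h; exact absurd rfl h
  | cons a r ih =>
    intro y _ hc z hz
    have h1 := List.isChain_cons_cons.1 hc
    rcases List.mem_cons.1 hz with rfl | hz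
    · exact h1.1.1
    · by_cases hr : r = []
      · subst hr
        rcases List.mem_cons.1 hz with rfl | hz
        · exact h1.1.2.1
        · cases hz
      · exact ih hr h1.2 z hz

lemma F0_hon {z : ℤ × ℤ} (h : hon z) {k : ℤ} (hk : F0 z < 3 * k) : F0 z ≤ 3 * k - 2 := by
  obtain ⟨a, b⟩ := z
  simp only [hon, F0] at *
  omega

/-- The rotation of the exits through the left side. -/
lemma gro_XL {R m m' : ℕ} (hR : 1 ≤ R) {η : List (ℤ × ℤ)} (h : η ∈ XL (5 * R) o (-(m : ℤ)) m') :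
    η.map gro ∈ XR (6 * R) o' (-(m' : ℤ)) m := by
  obtain ⟨y, η', rfl, hne, hnd, hc, hl, hy, hs⟩ := h
  have hh := chain_hon_all hne hc
  refine ⟨gro y, η'.map gro, rfl, by simpa using hne, hnd.map gro_inj, gro_chain hc, ?_, ?_, ?_⟩
  · rw [List.getLast?_map, hl]
    rfl
  · rw [gro_F0, hy]
    ring
  · intro z hz
    obtain ⟨w, hw, rfl⟩ := List.mem_map.1 hz
    obtain ⟨⟨h1, h2⟩, h3, h4⟩ := hs w hw
    have h5 := F0_hon (hh w (List.mem_cons_of_mem _ hw)) h4
    rw [abs_le] at h1 h2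
    push_cast at h1 h2 h3 h4 h5
    refine ⟨⟨?_, ?_⟩, ?_, ?_⟩
    · rw [gro_F0, abs_le]
      push_cast
      constructor <;> omega
    · rw [gro_snd, abs_le]
      push_cast
      constructor <;> omega
    · rw [gro_F0]
      omega
    · rw [gro_F0]
      omega

lemma gro_uf (hs : ASym) (n J : ℕ) {R m m' : ℕ} {η : List (ℤ × ℤ)} (h : η ∈ XL (5 * R) o (-(m : ℤ)) m') :
    uf n J (η.map gro) = uf n J η := by
  obtain ⟨y, η', rfl, hne, hnd, hc, hl, hy, -⟩ := h
  have hh := chain_hon_all hne hc y (by simp)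
  unfold uf
  rw [List.length_map]
  congr 1
  have h1 := hs n J _ Sy.ro y {z | z ∈ η'} hh
  have h2 : (fun z : ℤ × ℤ => (-1, 0) - z) '' {z | z ∈ η'} = {z | z ∈ η'.map gro} := by
    ext z
    simp only [Set.mem_image, Set.mem_setOf_eq, List.mem_map]
    rfl
  rw [h2] at h1
  exact h1

theorem ll (hs : ASym) : PLL := by
  intro n n' J R m m' hR _ _
  have hmem : ∀ q ∈ Qp (XL (5 * R) o (-(m : ℤ)) m') (XL (5 * R) o (-(m : ℤ)) m') o,
      (q.1.map gro, q.2.map gro) ∈ Qp (XR (6 * R) o' (-(m' : ℤ)) m) (XR (6 * R) o' (-(m' : ℤ)) m) o' := by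
    rintro ⟨η, θ⟩ ⟨h1, h2, h3⟩
    refine ⟨gro_XL hR h1, gro_XL hR h2, ?_⟩
    intro z hz hz'
    simp only [← List.map_tail] at hz hz'
    obtain ⟨w, hw, rfl⟩ := List.mem_map.1 hz
    obtain ⟨w', hw', he⟩ := List.mem_map.1 hz'
    have he := gro_inj he
    subst he
    rw [h3 w' hw hw', gro_o]
  let f : Qp (XL (5 * R) o (-(m : ℤ)) m') (XL (5 * R) o (-(m : ℤ)) m') o →
      Qp (XR (6 * R) o' (-(m' : ℤ)) m) (XR (6 * R) o' (-(m' : ℤ)) m) o' :=
    fun q => ⟨(q.1.1.map gro, q.1.2.map gro), hmem q.1 q.2⟩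
  have hf : Function.Injective f := by
    rintro ⟨⟨η, θ⟩, hq⟩ ⟨⟨η', θ'⟩, hq'⟩ h
    have h1 := congrArg Subtype.val h
    simp only [f, Prod.mk.injEq] at h1
    have h2 := List.map_injective_iff.2 gro_inj
    rw [Subtype.mk.injEq, Prod.mk.injEq]
    exact ⟨h2 h1.1, h2 h1.2⟩
  have key := ENNReal.tsum_comp_le_tsum_of_injective hf fun q => uf n J q.1.1 * uf n' J q.1.2
  unfold SQ
  refine le_trans (le_of_eq ?_) key
  refine tsum_congr fun q => ?_
  show uf n J q.1.1 * uf n' J q.1.2 = uf n J (q.1.1.map gro) * uf n' J (q.1.2.map gro)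
  rw [gro_uf hs n J q.2.1, gro_uf hs n' J q.2.2.1]

end Pool.Agent.EVN
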