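import Pool.Agent.EVN.P.Gam

/-!
EVN block P, module Opp (helper49): OPPOSITE SIDES, note 3192 (2).

PAPER PROOF. `q.1 = y1 :: η1`, `q.2 = y2 :: η2`, `γ = η1 ++ η2.reverse.tail` is a self-avoiding path from `h = y1 + (1, 0)` to `y2 - (1, 0)` through `o`; `γ - h = V (jn l)` with `hj l = m + m'` (`word_of`), the mark `-h` lies in the
block `c`: `l = l1 ++ c :: l2` (`cut_mark`), `l1` in `η1`, `l2` in `η2`. `u1 u2 = x^(1 + number of vertices of γ) ≤ wj l`. The map `q ↦ (c, u, l1, l2)` is injective.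
-/

namespace Pool.Agent.EVN.Pg

open Pool.Agent.Hhelper14.SAW Pool.Agent.HHP Pool.Agent.HEP Pool.Agent.PLY.G Pool.Agent.BEX.F
open scoped ENNReal

lemma ptz_append (l m : List Blk) : ptz (l ++ m) = ptz l + ptz m := by
  unfold ptz
  rw [List.map_append, List.sum_append]

lemma wj_ln (l : List Blk) : wj l = xE ^ ln l := by
  unfold wj ln
  induction l with
  | nil => simp
  | cons c l ih =>
    rw [List.map_cons, List.map_cons, List.prod_cons, List.sum_cons, ih, ← pow_add]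

/-- The data of a pair. -/
def OSpec (q : List (ℤ × ℤ) × List (ℤ × ℤ)) (t : Blk × (ℤ × ℤ) × List Blk × List Blk) : Prop :=
  ∃ B1 B2 : List (ℤ × ℤ), o ∉ B1 ∧ q.1 = (-(ptz t.2.2.1 + t.2.1) - (1, 0)) :: (B1 ++ [o]) ∧
    q.2 = (-(ptz t.2.2.1 + t.2.1) + ptz (t.2.2.1 ++ t.1 :: t.2.2.2)) :: (B2 ++ [o]) ∧
    V (jn (t.2.2.1 ++ t.1 :: t.2.2.2)) = (B1 ++ o :: B2.reverse).map (fun w => w - (-(ptz t.2.2.1 + t.2.1)))

lemma OSpec_inj {q q' : List (ℤ × ℤ) × List (ℤ × ℤ)} {t : Blk × (ℤ × ℤ) × List Blk × List Blk} (h : OSpec q t)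
    (h' : OSpec q' t) : q = q' := by
  obtain ⟨B1, B2, h1, h2, h3, h4⟩ := h
  obtain ⟨B1', B2', h1', h2', h3', h4'⟩ := h'
  rw [h4] at h4'
  have h5 := List.map_injective_iff.2 (sub_left_injective (b := -(ptz t.2.2.1 + t.2.1))) h4'
  obtain ⟨h6, h7⟩ := split_uniq' h5 h1 h1'
  have h8 : B2 = B2' := List.reverse_injective h7
  subst h6 h8
  exact Prod.ext (h2.trans h2'.symm) (h3.trans h3'.symm)

/-- The summand. -/
noncomputable def OG (m m' L : ℕ) (𝓛 : Law) (c : Blk) (u : ℤ × ℤ) (t : List Blk × List Blk) : ℝ≥0∞ :=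
  (ind (tl u ≤ m) * (ind (hj t.1 = m - tl u ∧ ln t.1 ≤ L) * (wj t.1 * 𝓛.av (VL t.1)))) *
    (ind (tr c u ≤ m') * (ind (hj t.2 = m' - tr c u ∧ ln t.2 ≤ L) * (wj t.2 * er 𝓛 t.2)))

lemma OG_tsum (m m' L : ℕ) (𝓛 : Law) (c : Blk) (u : ℤ × ℤ) :
    ∑' t, OG m m' L 𝓛 c u t = (ind (tl u ≤ m) * ak 𝓛 L (m - tl u)) * (ind (tr c u ≤ m') * ak 𝓛 L (m' - tr c u)) := by
  unfold OG
  rw [ENNReal.tsum_prod']
  simp only
  simp only [ENNReal.tsum_mul_left, ENNReal.tsum_mul_right]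
  rw [tsum_er]
  rfl

/-- The last vertex of a nonempty path as the end of the list. -/
lemma snoc_of {y v : ℤ × ℤ} {η : List (ℤ × ℤ)} (hne : η ≠ []) (h : (y :: η).getLast? = some v) : ∃ B, η = B ++ [v] := by
  cases η with
  | nil => exact absurd rfl hne
  | cons a r =>
    rw [List.getLast?_cons_cons] at h
    refine ⟨(a :: r).dropLast, ?_⟩
    have h1 := List.getLast?_eq_getLast_of_ne_nil (l := a :: r) (by simp)
    rw [h, Option.some.injEq] at h1
    rw [h1, List.dropLast_append_getLast]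

theorem opp_data (hs : ASym) {n n' J R L m m' : ℕ} {𝓛 : Law} (h𝓛 : Dom2 n J 𝓛) (h𝓛' : Dom2 n' J 𝓛) (hR : 1 ≤ R) (hL : 1369 * R ^ 2 ≤ L)
    {q : List (ℤ × ℤ) × List (ℤ × ℤ)} (hq : q ∈ Qp (XL (6 * R) o (-(m : ℤ)) m') (XR (6 * R) o (-(m : ℤ)) m') o) :
    ∃ t, OSpec q t ∧ uf n J q.1 * uf n' J q.2 ≤ 4 * (ind (szB t.1 ≤ 60 * R) * (xE ^ (t.1.1.length + 1) *
        (ind (t.2.1 ∈ V t.1.1) * OG m m' L 𝓛 t.1 t.2.1 t.2.2))) := by
  obtain ⟨⟨y1, η1, hq1, hne1, hn1, hc1, hl1, hF1, hs1⟩, ⟨y2, η2, hq2, hne2, hn2, hc2, hl2, hF2, hs2⟩, hd⟩ := hq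
  rw [hq1, hq2] at hd
  rw [hq1] at hn1 hc1 hl1
  rw [hq2] at hn2 hc2 hl2
  simp only [List.tail_cons] at hd
  obtain ⟨B1, rfl⟩ := snoc_of hne1 hl1
  obtain ⟨B2, rfl⟩ := snoc_of hne2 hl2
  have hh1 := chain_hon hne1 hc1
  have hh2 := chain_hon hne2 hc2
  have hB1 := (List.nodup_cons.1 hn1).2
  have hB2 := (List.nodup_cons.1 hn2).2
  have hC1 : HChain (B1 ++ [o]) := (List.isChain_cons.1 hc1).2
  have hC2 : HChain (B2 ++ [o]) := (List.isChain_cons.1 hc2).2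
  -- the two ends
  obtain ⟨h, hh⟩ : ∃ h, (B1 ++ [o]).head? = some h := by
    cases B1 with
    | nil => exact ⟨o, rfl⟩
    | cons a r => exact ⟨a, rfl⟩
  obtain ⟨e, he⟩ : ∃ e, (B2 ++ [o]).head? = some e := by
    cases B2 with
    | nil => exact ⟨o, rfl⟩
    | cons a r => exact ⟨a, rfl⟩
  have hhm : h ∈ B1 ++ [o] := List.mem_of_mem_head? hh
  have hem : e ∈ B2 ++ [o] := List.mem_of_mem_head? he
  obtain ⟨hy1, hFh⟩ := step_left ((List.isChain_cons.1 hc1).1 h hh) hF1 (hs1 h hhm).2.1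
  obtain ⟨hy2, hFe⟩ := step_right ((List.isChain_cons.1 hc2).1 e he) hF2 (hs2 e hem).2.2
  set γ := B1 ++ o :: B2.reverse with hγ
  have hmem : ∀ z, z ∈ γ ↔ z ∈ B1 ++ [o] ∨ z ∈ B2 ++ [o] := by
    intro z
    simp only [hγ, List.mem_append, List.mem_cons, List.mem_reverse, List.not_mem_nil, or_false]
    tauto
  have hγc : HChain γ := gam_chain hC1 hC2
  have hγn : γ.Nodup := gam_nodup hB1 hB2 hd
  have hγ0 : γ.head? = some h := by
    cases hB : B1 with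
    | nil =>
      rw [hB] at hh
      rw [hγ, hB]
      simpa using hh
    | cons a r =>
      rw [hB] at hh
      rw [hγ, hB]
      simpa using hh
  have hγe : γ.getLast? = some e := by
    rw [← List.head?_reverse]
    have : γ.reverse = B2 ++ [o] ++ B1.reverse := by
      rw [hγ]; simp
    rw [this]
    rw [List.head?_append, he]
    rfl
  have hγs : ∀ z ∈ γ, 3 * (-(m : ℤ)) ≤ F0 z ∧ F0 z < 3 * (m' : ℤ) := by
    intro z hz
    rcases (hmem z).1 hz with hz | hz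
    · exact (hs1 z hz).2
    · exact (hs2 z hz).2
  have hγb : ∀ z ∈ γ, z ∈ Bx (6 * R) := by
    intro z hz
    rcases (hmem z).1 hz with hz | hz
    · exact (hs1 z hz).1
    · exact (hs2 z hz).1
  have hγh : ∀ z ∈ γ, hon z := by
    intro z hz
    rcases (hmem z).1 hz with hz | hz
    · exact hh1 z (List.mem_cons_of_mem _ hz)
    · exact hh2 z (List.mem_cons_of_mem _ hz)
  obtain ⟨l, g1, g2, g3, g4⟩ := path_word hγc hγn hγ0 hγe hγh hFh hFe hγs
  have g5 : V (jn l) = B1.map (fun z => z - h) ++ (o - h) :: (B2.reverse).map (fun z => z - h) := by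
    rw [g3, hγ]; simp
  obtain ⟨l1, c, l2, u, k1, k2, k3, k4, k5⟩ := cut_mark g1 g5
  subst k1
  have ho : -(ptz l1 + u) = h := by
    rw [← k3]
    show -((0, 0) - h) = h
    ext <;> simp
  -- heights
  have hu := c.2.br.1.2 u k2
  have hcp := htw_pos c.1
  have e1 : F0 (o - h) = 3 * m := by
    rw [F0_sub, hFh]
    simp [F0, o]
  rw [k3, F0_add, F0_ptz] at e1
  have e2 : tl u + hj l1 = m := by
    unfold tl
    omega
  have e3 : tl u < htw c.1 := by
    unfold tl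
    omega
  have e4 : hj l1 + (htw c.1 + hj l2) = m + m' := by
    rw [hj_append, hj_cons] at g2
    omega
  have e5 : tr c u + hj l2 = m' := by
    unfold tr
    omega
  -- the parts
  have p1 : ∀ z ∈ VL l1, h + z ∈ B1 := by
    intro z hz
    obtain ⟨w, hw, hwz⟩ := List.mem_map.1 (k4 z hz)
    rw [← hwz]
    have : h + (w - h) = w := by ring
    rwa [this]
  have p2 : ∀ z ∈ VL l2, h + ptz (l1 ++ [c]) + z ∈ B2 := by
    intro z hz
    obtain ⟨w, hw, hwz⟩ := List.mem_map.1 (k5 z hz)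
    have : h + ptz (l1 ++ [c]) + z = w := by
      rw [add_assoc, ← hwz]; ring
    rw [this]
    exact List.mem_reverse.1 hw
  have p3 : ∀ z ∈ V c.1, h + ptz l1 + z ∈ γ := by
    intro z hz
    have h1 : ptz l1 + z ∈ V (jn (l1 ++ c :: l2)) := (mem_jn g1 _).2 ⟨l1, c, l2, z, rfl, hz, rfl⟩
    rw [g3] at h1
    obtain ⟨w, hw, hwz⟩ := List.mem_map.1 h1
    have : h + ptz l1 + z = w := by
      rw [add_assoc, ← hwz]; ring
    rwa [this]
  have hbox : (6 * (6 * R) + 1) ^ 2 ≤ L := by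
    refine le_trans ?_ hL
    nlinarith
  have l1L : ln l1 ≤ L := (ln_box (p := h) fun z hz => hγb _ ((hmem _).2 (Or.inl (by simp [p1 z hz])))).trans hbox
  have l2L : ln l2 ≤ L := (ln_box (p := h + ptz (l1 ++ [c])) fun z hz => hγb _ ((hmem _).2 (Or.inr (by simp [p2 z hz])))).trans hbox
  have hsz : szB c ≤ 60 * R := by
    refine (sz_box (p := h + ptz l1) fun z hz => hγb _ (p3 z hz)).trans ?_
    omega
  refine ⟨(c, u, l1, l2), ⟨B1, B2, ?_, ?_, ?_, ?_⟩, ?_⟩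
  · intro ho'
    have := (List.nodup_append.1 hB1).2.2 o ho' o (by simp)
    exact this rfl
  · show q.1 = (-(ptz l1 + u) - (1, 0)) :: (B1 ++ [o])
    rw [hq1, ho, hy1]
    congr 1
    ring
  · show q.2 = (-(ptz l1 + u) + ptz (l1 ++ c :: l2)) :: (B2 ++ [o])
    rw [hq2, ho, g4, hy2]
  · show V (jn (l1 ++ c :: l2)) = (B1 ++ o :: B2.reverse).map (fun w => w - (-(ptz l1 + u)))
    rw [ho, g3]
  · show uf n J q.1 * uf n' J q.2 ≤ 4 * (ind (szB c ≤ 60 * R) * (xE ^ (c.1.length + 1) *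
        (ind (u ∈ V c.1) * OG m m' L 𝓛 c u (l1, l2))))
    unfold OG
    simp only
    rw [ind_true hsz, ind_true k2, ind_true (show tl u ≤ m by omega), ind_true (show hj l1 = m - tl u ∧ ln l1 ≤ L by omega),
      ind_true (show tr c u ≤ m' by omega), ind_true (show hj l2 = m' - tr c u ∧ ln l2 ≤ L by omega)]
    simp only [one_mul]
    have w1 : ev n J y1 {z | z ∈ B1 ++ [o]} ≤ 2 * 𝓛.av (VL l1) := by
      refine ev_left hs h𝓛 (hh1 y1 (by simp)) hF1 fun z hz => ?_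
      rw [← hy1]
      show h + z ∈ B1 ++ [o]
      simp [p1 z hz]
    have w2 : ev n' J y2 {z | z ∈ B2 ++ [o]} ≤ 2 * er 𝓛 l2 := by
      refine ev_right (q := h + ptz (l1 ++ [c])) hs h𝓛' (hh2 y2 (by simp)) hF2 ?_ fun z hz => ?_
      · rw [hy2, ← g4, add_assoc, ← ptz_append]
        simp
      · show _ ∈ B2 ++ [o]
        simp [p2 z hz]
    have w3 : ln (l1 ++ c :: l2) = B1.length + 1 + B2.length := by
      rw [ln_len g1, g3, List.length_map, hγ]
      simp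
      ring
    have w4 : wj l1 * xE ^ (c.1.length + 1) * wj l2 = wj (l1 ++ c :: l2) := by
      rw [wj_append]
      have : wj (c :: l2) = xE ^ (c.1.length + 1) * wj l2 := by
        unfold wj; simp
      rw [this]; ring
    unfold uf
    rw [hq1, hq2]
    simp only [List.headI_cons, List.tail_cons, List.length_cons, List.length_append, List.length_nil, zero_add,
      Nat.add_sub_cancel]
    calc xE ^ (B1.length + 1) * ev n J y1 {z | z ∈ B1 ++ [o]} * (xE ^ (B2.length + 1) * ev n' J y2 {z | z ∈ B2 ++ [o]})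
        ≤ xE ^ (B1.length + 1) * (2 * 𝓛.av (VL l1)) * (xE ^ (B2.length + 1) * (2 * er 𝓛 l2)) := by gcongr
      _ = 4 * (xE * wj (l1 ++ c :: l2) * (𝓛.av (VL l1) * er 𝓛 l2)) := by
          rw [wj_ln, w3]; ring
      _ ≤ 4 * (1 * wj (l1 ++ c :: l2) * (𝓛.av (VL l1) * er 𝓛 l2)) := by gcongr; exact xE_le
      _ = _ := by rw [← w4]; ring

theorem opp (hs : ASym) : POpp := by
  intro n n' J R L m m' 𝓛 h𝓛 h𝓛' hR hL hm hm'
  have h1 : (Mk R fun c u => (ind (tl u ≤ m) * ak 𝓛 L (m - tl u)) * (ind (tr c u ≤ m') * ak 𝓛 L (m' - tr c u))) =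
      Mk R fun c u => ∑' t, OG m m' L 𝓛 c u t := by
    simp only [OG_tsum]
  rw [h1, Mk_eq, ← ENNReal.tsum_mul_left]
  unfold SQ
  choose φ hφ using fun q : Qp (XL (6 * R) o (-(m : ℤ)) m') (XR (6 * R) o (-(m : ℤ)) m') o =>
    opp_data (n := n) (n' := n') hs h𝓛 h𝓛' hR hL q.2
  refine tsum_le_inj φ ?_ fun q => (hφ q).2
  intro q q' hqq
  have h2 := (hφ q).1
  rw [hqq] at h2
  exact Subtype.ext (OSpec_inj h2 (hφ q').1)

end Pool.Agent.EVN.Pg
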