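import Pool.Agent.EVN.P.Opp

/-!
EVN block P, module Same (helper46): BOTH PATHS LEAVE THROUGH THE RIGHT SIDE, note 3192 (3).

PAPER PROOF. `q.1 = y1 :: η1`, `q.2 = y2 :: η2`, `γ = η1 ++ η2.reverse.tail` is a self-avoiding path from `y1 - (1, 0)` to `y2 - (1, 0)` through `v`. Let `p` be a vertex of `γ` with smallest `F0`; `F0 p = 3 k`: a vertex with `F0 = 3 k + 1`
has one neighbour to the right (`F0 = 3 k + 3`) and two with `F0 = 3 k`; `p` has two neighbours in `y1 :: γ ++ [y2]`.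
By the symmetry of the sum (exchange the two paths, factor `2`) we may assume `p ∈ η1`: `η1 = X ++ p :: Y`. `κ`: the word of `(p :: X.reverse) - p`; `β`: the word of `((p :: Y) ++ η2.reverse.tail) - p`, both of height `b - k`
(`path_word`); the mark `v - p` lies in the block `c` of `β`: `β = l' ++ c :: l2` (`cut_mark`). `e(q.1) ≤ 2 er κ`, `e(q.2) ≤ 2 er l2` (`ev_right`). `u1 u2 = wj β wj κ`. `hj l' = s`, `tl u = F0 v / 3 - k - s`, `hj κ = M + tl u + s`,
`hj l2 = M - tr c u`, `ln κ, ln l2 ≤ (36 R + 1)^2 ≤ 1369 R^2 ≤ L` (`ln_box`), `szB c ≤ 36 R + 2 ≤ 60 R` (`sz_box`). `QB l' κ` because `β` and `κ` only share `p`. The map `q ↦ (c, u, l', l2, κ)` is injective. `∑ l2` gives `ak` (`tsum_er`).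
-/

namespace Pool.Agent.EVN.Pg

open Pool.Agent.Hhelper14.SAW Pool.Agent.HHP Pool.Agent.HEP Pool.Agent.PLY.G Pool.Agent.BEX.F
open scoped ENNReal

/-- The data of a pair: `t = (c, u, l2, l1, κ)`, `p = v - (ptz l1 + u)` is the lowest vertex, in the first path. -/
def SSpec (v : ℤ × ℤ) (q : List (ℤ × ℤ) × List (ℤ × ℤ)) (t : Blk × (ℤ × ℤ) × List Blk × List Blk × List Blk) : Prop :=
  ∃ X C B2 : List (ℤ × ℤ), v ∉ C ∧ q.1 = (v - (ptz t.2.2.2.1 + t.2.1) + ptz t.2.2.2.2) :: (X ++ (C ++ [v])) ∧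
    q.2 = (v - (ptz t.2.2.2.1 + t.2.1) + ptz (t.2.2.2.1 ++ t.1 :: t.2.2.1)) :: (B2 ++ [v]) ∧
    V (jn (t.2.2.2.1 ++ t.1 :: t.2.2.1)) = (C ++ v :: B2.reverse).map (fun w => w - (v - (ptz t.2.2.2.1 + t.2.1))) ∧
    V (jn t.2.2.2.2) = ((v - (ptz t.2.2.2.1 + t.2.1)) :: X.reverse).map (fun w => w - (v - (ptz t.2.2.2.1 + t.2.1)))

lemma SSpec_inj {v : ℤ × ℤ} {q q' : List (ℤ × ℤ) × List (ℤ × ℤ)} {t : Blk × (ℤ × ℤ) × List Blk × List Blk × List Blk}
    (h : SSpec v q t) (h' : SSpec v q' t) : q = q' := by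
  obtain ⟨X, C, B2, h1, h2, h3, h4, h5⟩ := h
  obtain ⟨X', C', B2', h1', h2', h3', h4', h5'⟩ := h'
  rw [h4] at h4'
  rw [h5] at h5'
  have h6 := List.map_injective_iff.2 (sub_left_injective (b := v - (ptz t.2.2.2.1 + t.2.1))) h4'
  have h7 := List.map_injective_iff.2 (sub_left_injective (b := v - (ptz t.2.2.2.1 + t.2.1))) h5'
  obtain ⟨h8, h9⟩ := split_uniq' h6 h1 h1'
  have h10 : B2 = B2' := List.reverse_injective h9
  have h11 : X = X' := List.reverse_injective (List.cons.inj h7).2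
  subst h8 h10 h11
  exact Prod.ext (h2.trans h2'.symm) (h3.trans h3'.symm)

/-- The summand. -/
noncomputable def SG (R M L : ℕ) (𝓛 : Law) (c : Blk) (u : ℤ × ℤ) (t : List Blk × List Blk × List Blk) : ℝ≥0∞ :=
  ind (tl u ≤ 2 * R ∧ tr c u ≤ M) * ((ind (hj t.1 = M - tr c u ∧ ln t.1 ≤ L) * (wj t.1 * er 𝓛 t.1)) *
    ∑ s ∈ Finset.range (4 * R + 1), ind (hj t.2.1 = s ∧ hj t.2.2 = M + tl u + s ∧ ln t.2.2 ≤ L ∧ QB t.2.1 t.2.2) *
      (wj t.2.1 * wj t.2.2 * er 𝓛 t.2.2))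

lemma SG_tsum (R M L : ℕ) (𝓛 : Law) (c : Blk) (u : ℤ × ℤ) :
    ∑' t, SG R M L 𝓛 c u t = ind (tl u ≤ 2 * R ∧ tr c u ≤ M) *
      (ak 𝓛 L (M - tr c u) * ∑ s ∈ Finset.range (4 * R + 1), WW 𝓛 L s (M + tl u + s)) := by
  unfold SG
  rw [ENNReal.tsum_mul_left, ENNReal.tsum_prod']
  simp only [ENNReal.tsum_mul_left, ENNReal.tsum_mul_right]
  rw [tsum_er]
  congr 2
  rw [ENNReal.tsum_prod']
  have h1 : ∀ a : List Blk, ∑' b : List Blk, ∑ s ∈ Finset.range (4 * R + 1),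
      ind (hj a = s ∧ hj b = M + tl u + s ∧ ln b ≤ L ∧ QB a b) * (wj a * wj b * er 𝓛 b) =
      ∑ s ∈ Finset.range (4 * R + 1), ∑' b : List Blk,
        ind (hj a = s ∧ hj b = M + tl u + s ∧ ln b ≤ L ∧ QB a b) * (wj a * wj b * er 𝓛 b) := fun a =>
    Summable.tsum_finsetSum fun _ _ => ENNReal.summable
  simp only [h1]
  exact Summable.tsum_finsetSum fun _ _ => ENNReal.summable

/-- A lowest vertex with two neighbours is of the type of `o`. -/
lemma low_type {x p z : ℤ × ℤ} (h1 : Adj x p) (h2 : Adj p z) (h3 : x ≠ z) (h4 : F0 p ≤ F0 x) (h5 : F0 p ≤ F0 z) :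
    F0 p % 3 = 0 := by
  obtain ⟨a1, a2, a3⟩ := h1
  obtain ⟨-, b2, b3⟩ := h2
  obtain ⟨x1, x2⟩ := x
  obtain ⟨p1, p2⟩ := p
  obtain ⟨z1, z2⟩ := z
  simp only [U, F0, hon, Prod.mk_sub_mk, ne_eq, Prod.mk.injEq] at *
  omega

lemma low_mid {X Z : List (ℤ × ℤ)} {p : ℤ × ℤ} (hX : X ≠ []) (hZ : Z ≠ []) (hc : HChain (X ++ p :: Z))
    (hn : (X ++ p :: Z).Nodup) (h : ∀ z ∈ X ++ p :: Z, F0 p ≤ F0 z) : F0 p % 3 = 0 := by
  obtain ⟨X', x, rfl⟩ : ∃ X' x, X = X' ++ [x] := ⟨X.dropLast, X.getLast hX, (List.dropLast_append_getLast hX).symm⟩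
  obtain ⟨z, Z', rfl⟩ := List.exists_cons_of_ne_nil hZ
  have h1 := List.isChain_append.1 hc
  have h2 : Adj x p := h1.2.2 x (by simp) p (by simp)
  have h3 : Adj p z := (List.isChain_cons_cons.1 h1.2.1).1
  have h4 : x ≠ z := (List.nodup_append.1 hn).2.2 x (by simp) z (by simp)
  exact low_type h2 h3 h4 (h x (by simp)) (h z (by simp))

lemma box_num {R L : ℕ} (hR : 1 ≤ R) (hL : 1369 * R ^ 2 ≤ L) : (6 * (6 * R) + 1) ^ 2 ≤ L := by
  refine le_trans ?_ hL
  nlinarith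

theorem same_data (hs : ASym) {n n' J R L M : ℕ} {a b : ℤ} {v : ℤ × ℤ} {𝓛 : Law} (hD : Dom2 n J 𝓛) (hD' : Dom2 n' J 𝓛)
    (hR : 1 ≤ R) (hL : 1369 * R ^ 2 ≤ L) (hM : (M : ℤ) = b - F0 v / 3) (hv : F0 v < 3 * b - 2) (ha : F0 v / 3 ≤ a + 2 * R)
    {q : List (ℤ × ℤ) × List (ℤ × ℤ)} (hq : q ∈ Qp (XR (6 * R) v a b) (XR (6 * R) v a b) v) {p : ℤ × ℤ}
    (hp : p ∈ q.1.tail) (hp1 : ∀ z ∈ q.1.tail, F0 p ≤ F0 z) (hp2 : ∀ z ∈ q.2.tail, F0 p ≤ F0 z) :
    ∃ t, SSpec v q t ∧ uf n J q.1 * uf n' J q.2 ≤ 4 * (ind (szB t.1 ≤ 60 * R) * (xE ^ (t.1.1.length + 1) *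
        (ind (t.2.1 ∈ V t.1.1) * SG R M L 𝓛 t.1 t.2.1 t.2.2))) := by
  obtain ⟨⟨y1, η1, hq1, hne1, hn1, hc1, hl1, hF1, hs1⟩, ⟨y2, η2, hq2, hne2, hn2, hc2, hl2, hF2, hs2⟩, hd⟩ := hq
  rw [hq1, hq2] at hd
  rw [hq1] at hn1 hc1 hl1 hp hp1
  rw [hq2] at hn2 hc2 hl2 hp2
  simp only [List.tail_cons] at hd hp hp1 hp2
  obtain ⟨B1, rfl⟩ := snoc_of hne1 hl1
  obtain ⟨B2, rfl⟩ := snoc_of hne2 hl2
  have hh1 := chain_hon hne1 hc1
  have hh2 := chain_hon hne2 hc2
  have hB1 := (List.nodup_cons.1 hn1).2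
  have hB2 := (List.nodup_cons.1 hn2).2
  have hC1 : HChain (B1 ++ [v]) := (List.isChain_cons.1 hc1).2
  have hC2 : HChain (B2 ++ [v]) := (List.isChain_cons.1 hc2).2
  -- the two ends
  obtain ⟨h, hh⟩ : ∃ h, (B1 ++ [v]).head? = some h := by
    cases B1 with
    | nil => exact ⟨v, rfl⟩
    | cons a r => exact ⟨a, rfl⟩
  obtain ⟨e, he⟩ : ∃ e, (B2 ++ [v]).head? = some e := by
    cases B2 with
    | nil => exact ⟨v, rfl⟩
    | cons a r => exact ⟨a, rfl⟩
  have hhm : h ∈ B1 ++ [v] := List.mem_of_mem_head? hh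
  have hem : e ∈ B2 ++ [v] := List.mem_of_mem_head? he
  obtain ⟨hy1, hFh⟩ := step_right ((List.isChain_cons.1 hc1).1 h hh) hF1 (hs1 h hhm).2.2
  obtain ⟨hy2, hFe⟩ := step_right ((List.isChain_cons.1 hc2).1 e he) hF2 (hs2 e hem).2.2
  have hyy : y1 ≠ y2 := by
    intro hy
    have h1 : h = e := by
      have h2 : h + (1, 0) = e + (1, 0) := by rw [← hy1, ← hy2, hy]
      exact add_right_cancel h2
    have h3 := hd h hhm (by rw [h1]; exact hem)
    rw [h3] at hFh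
    omega
  -- the full path
  have hGc : HChain ((y1 :: B1) ++ v :: (y2 :: B2).reverse) := gam_chain hc1 hc2
  have hGn : ((y1 :: B1) ++ v :: (y2 :: B2).reverse).Nodup := by
    refine gam_nodup hn1 hn2 ?_
    intro z hz hz'
    rw [List.cons_append, List.mem_cons] at hz hz'
    rcases hz with rfl | hz
    · rcases hz' with hz' | hz'
      · exact absurd hz' hyy
      · have := (hs2 _ hz').2.2
        omega
    · rcases hz' with rfl | hz'
      · have := (hs1 _ hz).2.2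
        omega
      · exact hd z hz hz'
  -- the lowest vertex
  obtain ⟨X, Y, hXY⟩ := List.append_of_mem hp
  have hlast : (p :: Y).getLast? = some v := by
    have h1 : (X ++ p :: Y).getLast? = some v := by rw [← hXY]; simp
    rw [List.getLast?_append] at h1
    cases h2 : (p :: Y).getLast? with
    | none => simp at h2
    | some w =>
      rw [h2] at h1
      simpa using h1
  obtain ⟨C, hC⟩ : ∃ C, p :: Y = C ++ [v] := by
    refine ⟨(p :: Y).dropLast, ?_⟩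
    have h1 := List.getLast?_eq_getLast_of_ne_nil (l := p :: Y) (by simp)
    rw [hlast, Option.some.injEq] at h1
    rw [h1, List.dropLast_append_getLast]
  obtain rfl : B1 = X ++ C := by
    rw [hC, ← List.append_assoc] at hXY
    exact List.append_cancel_right hXY
  have hpy : F0 p < 3 * b - 2 := (hp1 v (by simp)).trans_lt hv
  have hGX : (y1 :: (X ++ C)) ++ v :: (y2 :: B2).reverse = (y1 :: X) ++ p :: (Y ++ (B2.reverse ++ [y2])) := by
    have h1 : C ++ v :: (B2.reverse ++ [y2]) = p :: (Y ++ (B2.reverse ++ [y2])) := by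
      have : C ++ v :: (B2.reverse ++ [y2]) = (C ++ [v]) ++ (B2.reverse ++ [y2]) := by simp
      rw [this, ← hC]
      rfl
    rw [List.reverse_cons, ← h1]
    simp
  have hty : F0 p % 3 = 0 := by
    refine low_mid (X := y1 :: X) (Z := Y ++ (B2.reverse ++ [y2])) (by simp) (by simp) ?_ ?_ ?_
    · rw [← hGX]; exact hGc
    · rw [← hGX]; exact hGn
    · rw [← hGX]
      intro z hz
      simp only [List.mem_append, List.mem_cons, List.mem_reverse] at hz
      rcases hz with (rfl | hz) | rfl | hz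
      · omega
      · exact hp1 z (by simp only [List.mem_append]; tauto)
      · exact hp1 z (by simp)
      · rcases hz with rfl | hz
        · omega
        · exact hp2 z (by simp [hz])
  have hGX2 : (y1 :: (X ++ C)) ++ v :: (y2 :: B2).reverse = (y1 :: X) ++ ((C ++ v :: B2.reverse) ++ [y2]) := by simp
  set γ := C ++ v :: B2.reverse with hγ
  have hγc : HChain γ := by
    have h1 := hGc
    rw [hGX2] at h1
    exact (List.isChain_append.1 (List.isChain_append.1 h1).2.1).1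
  have hγn : γ.Nodup := by
    have h1 := hGn
    rw [hGX2] at h1
    exact (List.nodup_append.1 (List.nodup_append.1 h1).2.1).1
  have hγ0 : γ.head? = some p := by
    have : γ = (C ++ [v]) ++ B2.reverse := by rw [hγ]; simp
    rw [this, ← hC]
    rfl
  have hγe : γ.getLast? = some e := by
    rw [← List.head?_reverse]
    have : γ.reverse = B2 ++ [v] ++ C.reverse := by
      rw [hγ]; simp
    rw [this, List.head?_append, he]
    rfl
  have hmem : ∀ z ∈ γ, z ∈ (X ++ C) ++ [v] ∨ z ∈ B2 ++ [v] := by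
    intro z
    simp only [hγ, List.mem_append, List.mem_cons, List.mem_reverse, List.not_mem_nil, or_false]
    tauto
  have hγs : ∀ z ∈ γ, 3 * (F0 p / 3) ≤ F0 z ∧ F0 z < 3 * b := by
    intro z hz
    rcases hmem z hz with hz | hz
    · have h1 := hp1 z hz
      have h2 := (hs1 z hz).2.2
      omega
    · have h1 := hp2 z hz
      have h2 := (hs2 z hz).2.2
      omega
  have hγb : ∀ z ∈ γ, z ∈ Bx (6 * R) := by
    intro z hz
    rcases hmem z hz with hz | hz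
    · exact (hs1 z hz).1
    · exact (hs2 z hz).1
  have hγh : ∀ z ∈ γ, hon z := by
    intro z hz
    rcases hmem z hz with hz | hz
    · exact hh1 z (List.mem_cons_of_mem _ hz)
    · exact hh2 z (List.mem_cons_of_mem _ hz)
  obtain ⟨l, g1, g2, g3, g4⟩ := path_word hγc hγn hγ0 hγe hγh (by omega) hFe hγs
  -- the other arm
  have hXp : ∀ z ∈ X ++ [p], z ∈ (X ++ C) ++ [v] := by
    intro z hz
    rw [hXY]
    simp only [List.mem_append, List.mem_cons, List.not_mem_nil, or_false] at hz ⊢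
    tauto
  have hXpr : (p :: X.reverse) = (X ++ [p]).reverse := by simp
  have hpre : (X ++ C) ++ [v] = (X ++ [p]) ++ Y := by rw [hXY]; simp
  have hκc : HChain (p :: X.reverse) := by
    rw [hXpr]
    refine chain_reverse ?_
    have h1 := hC1
    rw [hpre] at h1
    exact (List.isChain_append.1 h1).1
  have hκn : (p :: X.reverse).Nodup := by
    rw [hXpr, List.nodup_reverse]
    have h1 := hB1
    rw [hpre] at h1
    exact (List.nodup_append.1 h1).1
  have hκe : (p :: X.reverse).getLast? = some h := by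
    rw [hXpr, List.getLast?_reverse]
    have h1 := hh
    rw [hpre, List.head?_append] at h1
    cases h2 : (X ++ [p]).head? with
    | none => simp at h2
    | some w =>
      rw [h2] at h1
      simpa using h1
  have hκm : ∀ z ∈ p :: X.reverse, z ∈ (X ++ C) ++ [v] := by
    intro z hz
    rw [hXpr, List.mem_reverse] at hz
    exact hXp z hz
  obtain ⟨κ, k1, k2, k3, k4⟩ := path_word hκc hκn (by simp) hκe (fun z hz => hh1 z (List.mem_cons_of_mem _ (hκm z hz)))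
    (show F0 p = 3 * (F0 p / 3) by omega) hFh (fun z hz => by
      have h1 := hp1 z (hκm z hz)
      have h2 := (hs1 z (hκm z hz)).2.2
      omega)
  -- the mark
  have g5 : V (jn l) = C.map (fun z => z - p) ++ (v - p) :: (B2.reverse).map (fun z => z - p) := by
    rw [g3, hγ]; simp
  obtain ⟨l1, c, l2, u, c1, c2, c3, c4, c5⟩ := cut_mark g1 g5
  subst c1
  have ho : v - (ptz l1 + u) = p := by
    rw [← c3]
    ring
  -- heights
  have hu := c.2.br.1.2 u c2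
  have hcp := htw_pos c.1
  have e1 : F0 (v - p) = F0 v - F0 p := F0_sub _ _
  rw [c3, F0_add, F0_ptz] at e1
  have hpa : 3 * a ≤ F0 p := (hs1 p (hκm p (by simp))).2.1
  have e2 : (tl u : ℤ) + hj l1 = F0 v / 3 - F0 p / 3 := by
    unfold tl
    omega
  have e3 : tl u < htw c.1 := by
    unfold tl
    omega
  have e4 : ((hj l1 : ℤ) + (htw c.1 + hj l2)) = b - F0 p / 3 := by
    rw [hj_append, hj_cons] at g2
    push_cast at g2
    omega
  have e5 : tr c u + hj l2 = M := by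
    unfold tr
    omega
  have e6 : hj κ = M + tl u + hj l1 := by omega
  have e7 : tl u ≤ 2 * R := by omega
  have e8 : hj l1 ≤ 2 * R := by omega
  -- the parts
  have p1 : ∀ z ∈ VL l1, p + z ∈ C := by
    intro z hz
    obtain ⟨w, hw, hwz⟩ := List.mem_map.1 (c4 z hz)
    rw [← hwz]
    have : p + (w - p) = w := by ring
    rwa [this]
  have p2 : ∀ z ∈ VL l2, p + ptz (l1 ++ [c]) + z ∈ B2 := by
    intro z hz
    obtain ⟨w, hw, hwz⟩ := List.mem_map.1 (c5 z hz)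
    have : p + ptz (l1 ++ [c]) + z = w := by
      rw [add_assoc, ← hwz]; ring
    rw [this]
    exact List.mem_reverse.1 hw
  have p3 : ∀ z ∈ V c.1, p + ptz l1 + z ∈ γ := by
    intro z hz
    have h1 : ptz l1 + z ∈ V (jn (l1 ++ c :: l2)) := (mem_jn g1 _).2 ⟨l1, c, l2, z, rfl, hz, rfl⟩
    rw [g3] at h1
    obtain ⟨w, hw, hwz⟩ := List.mem_map.1 h1
    have : p + ptz l1 + z = w := by
      rw [add_assoc, ← hwz]; ring
    rwa [this]
  have p4 : ∀ z ∈ VL κ, p + z ∈ p :: X.reverse := by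
    intro z hz
    have h1 := (VL_iff k1 z).1 hz
    rw [k3] at h1
    obtain ⟨w, hw, hwz⟩ := List.mem_map.1 h1
    have : p + z = w := by
      rw [← hwz]; ring
    rwa [this]
  have hQ : QB l1 κ := by
    by_cases hl1' : l1 = []
    · exact Or.inl hl1'
    · refine Or.inr (Or.inr fun z hz hz' => ?_)
      have h1 := p1 z ((VL_iff hl1' z).2 hz)
      have h2 := p4 z ((VL_iff k1 z).2 hz')
      rw [List.mem_cons] at h2
      rcases h2 with h2 | h2
      · have h3 : z = 0 := by simpa using h2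
        rw [h3]
        rfl
      · exfalso
        have h3 := (List.nodup_append.1 (List.nodup_append.1 hB1).1).2.2 _ (List.mem_reverse.1 h2) _ h1
        exact h3 rfl
  have hbox : (6 * (6 * R) + 1) ^ 2 ≤ L := box_num hR hL
  have kL : ln κ ≤ L := (ln_box (p := p) fun z hz => (hs1 _ (hκm _ (p4 z hz))).1).trans hbox
  have l2L : ln l2 ≤ L := (ln_box (p := p + ptz (l1 ++ [c])) fun z hz => (hs2 _ (by simp [p2 z hz])).1).trans hbox
  have hsz : szB c ≤ 60 * R := by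
    refine (sz_box (p := p + ptz l1) fun z hz => hγb _ (p3 z hz)).trans ?_
    omega
  refine ⟨(c, u, l2, l1, κ), ⟨X, C, B2, ?_, ?_, ?_, ?_, ?_⟩, ?_⟩
  · intro ho'
    have := (List.nodup_append.1 hB1).2.2 v (by simp [ho']) v (by simp)
    exact this rfl
  · show q.1 = (v - (ptz l1 + u) + ptz κ) :: (X ++ (C ++ [v]))
    rw [hq1, ho, k4, hy1, List.append_assoc]
  · show q.2 = (v - (ptz l1 + u) + ptz (l1 ++ c :: l2)) :: (B2 ++ [v])
    rw [hq2, ho, g4, hy2]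
  · show V (jn (l1 ++ c :: l2)) = (C ++ v :: B2.reverse).map (fun w => w - (v - (ptz l1 + u)))
    rw [ho, g3]
  · show V (jn κ) = ((v - (ptz l1 + u)) :: X.reverse).map (fun w => w - (v - (ptz l1 + u)))
    rw [ho, k3]
  · show uf n J q.1 * uf n' J q.2 ≤ 4 * (ind (szB c ≤ 60 * R) * (xE ^ (c.1.length + 1) *
        (ind (u ∈ V c.1) * SG R M L 𝓛 c u (l2, l1, κ))))
    have w0 : wj l1 * wj κ * er 𝓛 κ ≤ ∑ s ∈ Finset.range (4 * R + 1),
        ind (hj l1 = s ∧ hj κ = M + tl u + s ∧ ln κ ≤ L ∧ QB l1 κ) * (wj l1 * wj κ * er 𝓛 κ) := by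
      have h1 := Finset.single_le_sum (f := fun s => ind (hj l1 = s ∧ hj κ = M + tl u + s ∧ ln κ ≤ L ∧ QB l1 κ) *
        (wj l1 * wj κ * er 𝓛 κ)) (s := Finset.range (4 * R + 1)) (fun _ _ => bot_le)
        (Finset.mem_range.2 (show hj l1 < 4 * R + 1 by omega))
      beta_reduce at h1
      rw [ind_true (show hj l1 = hj l1 ∧ hj κ = M + tl u + hj l1 ∧ ln κ ≤ L ∧ QB l1 κ from ⟨rfl, e6, kL, hQ⟩),
        one_mul] at h1
      exact h1
    unfold SG
    simp only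
    rw [ind_true hsz, ind_true c2, ind_true (show tl u ≤ 2 * R ∧ tr c u ≤ M by omega),
      ind_true (show hj l2 = M - tr c u ∧ ln l2 ≤ L by omega)]
    simp only [one_mul]
    have w1 : ev n J y1 {z | z ∈ (X ++ C) ++ [v]} ≤ 2 * er 𝓛 κ := by
      refine ev_right (q := p) hs hD (hh1 y1 (by simp)) hF1 (by rw [k4, hy1]) fun z hz => ?_
      exact hκm _ (p4 z hz)
    have w2 : ev n' J y2 {z | z ∈ B2 ++ [v]} ≤ 2 * er 𝓛 l2 := by
      refine ev_right (q := p + ptz (l1 ++ [c])) hs hD' (hh2 y2 (by simp)) hF2 ?_ fun z hz => ?_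
      · rw [hy2, ← g4, add_assoc, ← ptz_append]
        simp
      · show _ ∈ B2 ++ [v]
        simp [p2 z hz]
    have w3 : ln (l1 ++ c :: l2) = C.length + 1 + B2.length := by
      rw [ln_len g1, g3, List.length_map, hγ]
      simp
      ring
    have w3' : ln κ = X.length + 1 := by
      rw [ln_len k1, k3, List.length_map]
      simp
    have w4 : wj l1 * xE ^ (c.1.length + 1) * wj l2 = wj (l1 ++ c :: l2) := by
      rw [wj_append]
      have : wj (c :: l2) = xE ^ (c.1.length + 1) * wj l2 := by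
        unfold wj; simp
      rw [this]; ring
    unfold uf
    rw [hq1, hq2]
    simp only [List.headI_cons, List.tail_cons, List.length_cons, List.length_append, List.length_nil, zero_add,
      Nat.add_sub_cancel]
    calc xE ^ (X.length + C.length + 1) * ev n J y1 {z | z ∈ (X ++ C) ++ [v]} *
          (xE ^ (B2.length + 1) * ev n' J y2 {z | z ∈ B2 ++ [v]})
        ≤ xE ^ (X.length + C.length + 1) * (2 * er 𝓛 κ) * (xE ^ (B2.length + 1) * (2 * er 𝓛 l2)) := by gcongr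
      _ = 4 * (wj κ * wj (l1 ++ c :: l2) * (er 𝓛 κ * er 𝓛 l2)) := by
          rw [wj_ln, wj_ln, w3, w3']; ring
      _ = 4 * (xE ^ (c.1.length + 1) * (wj l2 * er 𝓛 l2 * (wj l1 * wj κ * er 𝓛 κ))) := by rw [← w4]; ring
      _ ≤ _ := by gcongr

/-- The lowest vertex is in the first path. -/
def Low1 (q : List (ℤ × ℤ) × List (ℤ × ℤ)) : Prop :=
  ∃ p ∈ q.1.tail, (∀ z ∈ q.1.tail, F0 p ≤ F0 z) ∧ ∀ z ∈ q.2.tail, F0 p ≤ F0 z

lemma low_or {q : List (ℤ × ℤ) × List (ℤ × ℤ)} (h : q.1.tail ++ q.2.tail ≠ []) : Low1 q ∨ Low1 q.swap := by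
  obtain ⟨p, hp, hp'⟩ := (q.1.tail ++ q.2.tail).toFinset.exists_min_image F0
    (by rwa [List.toFinset_nonempty_iff])
  simp only [List.mem_toFinset, List.mem_append] at hp hp'
  rcases hp with hp | hp
  · exact Or.inl ⟨p, hp, fun z hz => hp' z (Or.inl hz), fun z hz => hp' z (Or.inr hz)⟩
  · exact Or.inr ⟨p, hp, fun z hz => hp' z (Or.inr hz), fun z hz => hp' z (Or.inl hz)⟩

/-- The summand with the block. -/
noncomputable def SH (R M L : ℕ) (𝓛 : Law) (t : Blk × (ℤ × ℤ) × List Blk × List Blk × List Blk) : ℝ≥0∞ :=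
  ind (szB t.1 ≤ 60 * R) * (xE ^ (t.1.1.length + 1) * (ind (t.2.1 ∈ V t.1.1) * SG R M L 𝓛 t.1 t.2.1 t.2.2))

lemma SH_tsum (R M L : ℕ) (𝓛 : Law) : ∑' t, SH R M L 𝓛 t = Mk R fun c u => ind (tl u ≤ 2 * R ∧ tr c u ≤ M) *
      (ak 𝓛 L (M - tr c u) * ∑ s ∈ Finset.range (4 * R + 1), WW 𝓛 L s (M + tl u + s)) := by
  have h1 : (Mk R fun c u => ind (tl u ≤ 2 * R ∧ tr c u ≤ M) *
      (ak 𝓛 L (M - tr c u) * ∑ s ∈ Finset.range (4 * R + 1), WW 𝓛 L s (M + tl u + s))) =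
      Mk R fun c u => ∑' t, SG R M L 𝓛 c u t := by
    simp only [SG_tsum]
  rw [h1, Mk_eq]
  rfl

lemma sum_le (v : ℤ × ℤ) {f : List (ℤ × ℤ) × List (ℤ × ℤ) → ℝ≥0∞} {g : Blk × (ℤ × ℤ) × List Blk × List Blk × List Blk → ℝ≥0∞}
    {A : Set (List (ℤ × ℤ) × List (ℤ × ℤ))} (h : ∀ q ∈ A, ∃ t, SSpec v q t ∧ f q ≤ g t) :
    ∑' q : A, f q.1 ≤ ∑' t, g t := by
  choose φ hφ using fun q : A => h q.1 q.2
  refine tsum_le_inj φ ?_ fun q => (hφ q).2
  intro q q' hqq
  have h2 := (hφ q).1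
  rw [hqq] at h2
  exact Subtype.ext (SSpec_inj h2 (hφ q').1)

lemma sum_le' (v : ℤ × ℤ) {f : List (ℤ × ℤ) × List (ℤ × ℤ) → ℝ≥0∞} {g : Blk × (ℤ × ℤ) × List Blk × List Blk × List Blk → ℝ≥0∞}
    {A : Set (List (ℤ × ℤ) × List (ℤ × ℤ))} (h : ∀ q ∈ A, ∃ t, SSpec v q.swap t ∧ f q ≤ g t) :
    ∑' q : A, f q.1 ≤ ∑' t, g t := by
  choose φ hφ using fun q : A => h q.1 q.2
  refine tsum_le_inj φ ?_ fun q => (hφ q).2
  intro q q' hqq
  have h2 := (hφ q).1
  rw [hqq] at h2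
  exact Subtype.ext (Prod.swap_injective (SSpec_inj h2 (hφ q').1))

theorem same (hs : ASym) : PSame := by
  intro n n' J R L M a b v 𝓛 hD hD' hR hL _ hM hv _ ha
  rw [← SH_tsum]
  generalize hQ : Qp (XR (6 * R) v a b) (XR (6 * R) v a b) v = Q
  have key1 : ∑' q : {q | q ∈ Q ∧ Low1 q}, uf n J q.1.1 * uf n' J q.1.2 ≤ ∑' t, 4 * SH R M L 𝓛 t := by
    refine sum_le v (f := fun q => uf n J q.1 * uf n' J q.2) (g := fun t => 4 * SH R M L 𝓛 t) ?_
    rintro q ⟨hq, p, hp, h1, h2⟩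
    rw [← hQ] at hq
    exact same_data hs hD hD' hR hL hM hv ha hq hp h1 h2
  have key2 : ∑' q : {q | q ∈ Q ∧ Low1 q.swap}, uf n J q.1.1 * uf n' J q.1.2 ≤ ∑' t, 4 * SH R M L 𝓛 t := by
    refine sum_le' v (f := fun q => uf n J q.1 * uf n' J q.2) (g := fun t => 4 * SH R M L 𝓛 t) ?_
    rintro q ⟨hq, p, hp, h1, h2⟩
    rw [← hQ] at hq
    obtain ⟨t, ht, ht'⟩ := same_data hs hD' hD hR hL hM hv ha
      (q := q.swap) ⟨hq.2.1, hq.1, fun z hz hz' => hq.2.2 z hz' hz⟩ hp h1 h2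
    exact ⟨t, ht, le_of_eq_of_le (mul_comm (uf n J q.1) (uf n' J q.2)) ht'⟩
  have hsub : Q ⊆ {q | q ∈ Q ∧ Low1 q} ∪ {q | q ∈ Q ∧ Low1 q.swap} := by
    intro q hq
    have hq' := hq
    rw [← hQ] at hq'
    obtain ⟨y, η, e1, e2, -⟩ := hq'.1
    rcases low_or (q := q) (by rw [e1]; simp [e2]) with h | h
    · exact Or.inl ⟨hq, h⟩
    · exact Or.inr ⟨hq, h⟩
  have k1 := ENNReal.tsum_mono_subtype (fun q : List (ℤ × ℤ) × List (ℤ × ℤ) => uf n J q.1 * uf n' J q.2) hsub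
  have k2 := ENNReal.tsum_union_le (fun q : List (ℤ × ℤ) × List (ℤ × ℤ) => uf n J q.1 * uf n' J q.2)
    {q | q ∈ Q ∧ Low1 q} {q | q ∈ Q ∧ Low1 q.swap}
  have k3 := (k1.trans k2).trans (add_le_add key1 key2)
  rw [ENNReal.tsum_mul_left] at k3
  refine le_trans k3 (le_of_eq ?_)
  ring

end Pool.Agent.EVN.Pg
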