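import Pool.Agent.EVN.P.Up
import Pool.Agent.EVN.P.Opp
import Pool.Agent.EVN.P.Same
import Pool.Agent.EVN.P.LL
import Pool.Agent.EVN.P.Avg

/-!
EVN block P: assembly.
-/

namespace Pool.Agent.EVN

/-- **(P-main)** from block A. -/
theorem pmain (hs : ASym) (hU : AUp) : PMain := pmain_of (up hs hU) (Pg.opp hs) (Pg.same hs) (ll hs)

end Pool.Agent.EVN
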