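import Pool.Agent.EVN.Stmt

/-!
Project EVN, BLOCK P (geometry), note 3192 (1), (2), (3). DEFINITIONS AND CONTRACTS (helper49).

The strip with the columns `a, ..., b - 1` (`3 a ≤ F0 z < 3 b`; `F0 z ≤ 3 b - 2` for a lattice vertex). Paths are lists, latest vertex first.

* `XR D v a b`: paths `y :: η'` from `v`; `η'` in the strip and in `Bx D`, `y` is beyond the right side (`F0 y = 3 b`, so `y = (head of η') + (1, 0)`).
* `XL D v a b`: the same, `y` beyond the left side (`F0 y = 3 a - 2`).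
* `Qp X Y v`: pairs of paths whose tails meet only in `v`.
* `uf n J η = u(η) e(η)`, `SQ n n' J Q` = the sum over a set of pairs (length `n` for the first walk, `n'` for the second one).
* `Mk R f`: sum over the blocks `c` of size at most `60 R` and their vertices `u` of the mass of `c` times `f c u`; `tl u` = number of columns of `c` left
  of the vertex `u`, `tr c u` = number of columns from the column of `u` on (so `tl u + tr c u = htw c`).

CONTRACTS. `PUp` (module Up: from `AUp`, `ASym`; three directions, exits, masses of the error terms), `POpp` (opposite sides), `PSame` (both right, from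
`v = o` or `v = o'`), `PLL` (both left = both right from `o'`, rotation by 180 degrees). `Avg`: all of them give `PMain`.
-/

namespace Pool.Agent.EVN

open Pool.Agent.Hhelper14.SAW Pool.Agent.HHP Pool.Agent.HEP Pool.Agent.PLY.G Pool.Agent.BEX.F
open scoped ENNReal

/-- Exit through the right side of the strip of the columns `a, ..., b - 1`. -/
def XR (D : ℕ) (v : ℤ × ℤ) (a b : ℤ) : Set (List (ℤ × ℤ)) :=
  {η | ∃ y η', η = y :: η' ∧ η' ≠ [] ∧ η.Nodup ∧ HChain η ∧ η.getLast? = some v ∧ F0 y = 3 * b ∧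
    ∀ z ∈ η', z ∈ Bx D ∧ 3 * a ≤ F0 z ∧ F0 z < 3 * b}

/-- Exit through the left side. -/
def XL (D : ℕ) (v : ℤ × ℤ) (a b : ℤ) : Set (List (ℤ × ℤ)) :=
  {η | ∃ y η', η = y :: η' ∧ η' ≠ [] ∧ η.Nodup ∧ HChain η ∧ η.getLast? = some v ∧ F0 y = 3 * a - 2 ∧
    ∀ z ∈ η', z ∈ Bx D ∧ 3 * a ≤ F0 z ∧ F0 z < 3 * b}

/-- Pairs of paths which meet only in `v` (before their last vertices). -/
def Qp (X Y : Set (List (ℤ × ℤ))) (v : ℤ × ℤ) : Set (List (ℤ × ℤ) × List (ℤ × ℤ)) :=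
  {q | q.1 ∈ X ∧ q.2 ∈ Y ∧ ∀ z ∈ q.1.tail, z ∈ q.2.tail → z = v}

/-- Mass times extension functional. -/
noncomputable def uf (n J : ℕ) (η : List (ℤ × ℤ)) : ℝ≥0∞ := xE ^ (η.length - 1) * ev n J η.headI {z | z ∈ η.tail}

/-- The sum over a set of pairs (two lengths). -/
noncomputable def SQ (n n' J : ℕ) (Q : Set (List (ℤ × ℤ) × List (ℤ × ℤ))) : ℝ≥0∞ := ∑' q : Q, uf n J q.1.1 * uf n' J q.1.2

/-- The functional is dominated by the law. -/
def Dom2 (n J : ℕ) (𝓛 : Law) : Prop := ∀ S : Set (ℤ × ℤ), ev n J o' S ≤ 2 * 𝓛.av S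

/-- The mass of a set of pairs. -/
noncomputable def mQ (Q : Set (List (ℤ × ℤ) × List (ℤ × ℤ))) : ℝ≥0∞ :=
  ∑' q : Q, xE ^ (q.1.1.length - 1) * xE ^ (q.1.2.length - 1)

/-- All pairs for the strip of the columns `-m, ..., m' - 1`. -/
def QA (D m m' : ℕ) : Set (List (ℤ × ℤ) × List (ℤ × ℤ)) :=
  Qp (XL D o (-(m : ℤ)) m' ∪ XR D o (-(m : ℤ)) m') (XL D o (-(m : ℤ)) m' ∪ XR D o (-(m : ℤ)) m') o

/-- Columns of the block left of the vertex. -/
def tl (u : ℤ × ℤ) : ℕ := (F0 u / 3).toNat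

/-- Columns of the block from the column of the vertex on. -/
def tr (c : Blk) (u : ℤ × ℤ) : ℕ := htw c.1 - tl u

/-- Sum over the marked blocks. -/
noncomputable def Mk (R : ℕ) (f : Blk → ℤ × ℤ → ℝ≥0∞) : ℝ≥0∞ :=
  ∑' c : Blk, ind (szB c ≤ 60 * R) * (xE ^ (c.1.length + 1) * ∑ u ∈ (V c.1).toFinset, f c u)

/-- (P-up): the reduction to the strips in the direction of the columns. -/
def PUp : Prop := ∃ C K0 n0 : ℕ, ∀ n n' J R m m' : ℕ, Adm n0 n J → n ≤ n' → 1 ≤ R → R ≤ m → m ≤ 2 * R → R ≤ m' → m' ≤ 2 * R →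
  PP n n' ≤ C * (SQ n n' J (QA (5 * R) m m') + (R : ℝ≥0∞) ^ K0 / J)

/-- (P-opp): opposite sides. -/
def POpp : Prop := ∀ (n n' J R L m m' : ℕ) (𝓛 : Law), Dom2 n J 𝓛 → Dom2 n' J 𝓛 → 1 ≤ R → 1369 * R ^ 2 ≤ L → 1 ≤ m → 1 ≤ m' →
  SQ n n' J (Qp (XL (6 * R) o (-(m : ℤ)) m') (XR (6 * R) o (-(m : ℤ)) m') o) ≤
    4 * Mk R fun c u => (ind (tl u ≤ m) * ak 𝓛 L (m - tl u)) * (ind (tr c u ≤ m') * ak 𝓛 L (m' - tr c u))

/-- (P-same): both paths leave through the right side. `M` = number of columns from the column of `v` to the right side. -/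
def PSame : Prop := ∀ (n n' J R L M : ℕ) (a b : ℤ) (v : ℤ × ℤ) (𝓛 : Law), Dom2 n J 𝓛 → Dom2 n' J 𝓛 → 1 ≤ R → 1369 * R ^ 2 ≤ L →
  (v = o ∨ v = o') → (M : ℤ) = b - F0 v / 3 → F0 v < 3 * b - 2 → a ≤ F0 v / 3 → F0 v / 3 ≤ a + 2 * R →
  SQ n n' J (Qp (XR (6 * R) v a b) (XR (6 * R) v a b) v) ≤
    8 * Mk R fun c u => ind (tl u ≤ 2 * R ∧ tr c u ≤ M) *
      (ak 𝓛 L (M - tr c u) * ∑ s ∈ Finset.range (4 * R + 1), WW 𝓛 L s (M + tl u + s))

/-- (P-left): both left = both right from `o'`. -/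
def PLL : Prop := ∀ n n' J R m m' : ℕ, 1 ≤ R → 1 ≤ m → 1 ≤ m' →
  SQ n n' J (Qp (XL (5 * R) o (-(m : ℤ)) m') (XL (5 * R) o (-(m : ℤ)) m') o) ≤
    SQ n n' J (Qp (XR (6 * R) o' (-(m' : ℤ)) m) (XR (6 * R) o' (-(m' : ℤ)) m) o')

/-- The law of `IsEv` dominates both functionals. -/
theorem IsEv.dom {n n' J : ℕ} {𝓛 : Law} (h : IsEv n n' J 𝓛) : Dom2 n J 𝓛 ∧ Dom2 n' J 𝓛 :=
  ⟨fun S => by rw [h S]; exact le_self_add, fun S => by rw [h S]; exact le_add_self⟩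

end Pool.Agent.EVN
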