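import Pool.Agent.EVN.P.Defs

/-!
EVN block P, module Ev (helper49): THE EXTENSION FUNCTIONAL at the ends of a word.

`ev_left`: the path leaves through the left side at `y` (`F0 y = 3 a - 2`), `y + (1, 0)` is the start of the word `l`, which is contained in the obstacle. `ev_right`: the path leaves through the right side at `y`, `y = q + ptz l`
is the point after the end of the word `l` which starts at `q`.
-/

namespace Pool.Agent.EVN.Pg

open Pool.Agent.Hhelper14.SAW Pool.Agent.HHP Pool.Agent.HEP Pool.Agent.PLY.G Pool.Agent.BEX.F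
open scoped ENNReal

/-! ### finiteness -/

lemma U_finite : Set.Finite {d : ℤ × ℤ | U d} := by
  refine Set.Finite.subset (Set.toFinite ({(1, 0), (-1, 0), (0, 1), (0, -1), (1, -1), (-1, 1)} : Set (ℤ × ℤ))) ?_
  rintro ⟨a, b⟩ h
  simp only [Set.mem_setOf_eq, U] at h
  simp only [Set.mem_insert_iff, Set.mem_singleton_iff, Prod.mk.injEq]
  omega

theorem Wk_finite (v : ℤ × ℤ) (n : ℕ) : (Wk v n).Finite := by
  induction n with
  | zero =>
    refine Set.Finite.subset (Set.finite_singleton [v]) ?_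
    rintro P ⟨h1, h2, h3, h4⟩
    obtain ⟨a, rfl⟩ := List.length_eq_one_iff.1 h1
    simp only [List.getLast?_singleton, Option.some.injEq] at h4
    rw [h4]; rfl
  | succ n ih =>
    have hf : Set.Finite ((fun p : List (ℤ × ℤ) × (ℤ × ℤ) => (p.1.headI + p.2) :: p.1) '' ((Wk v n) ×ˢ {d | U d})) :=
      (ih.prod U_finite).image _
    refine hf.subset ?_
    rintro P ⟨h1, h2, h3, h4⟩
    match P, h1, h2, h3, h4 with
    | [], h1, _, _, _ => simp at h1
    | [a], h1, _, _, _ => simp at h1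
    | a :: b :: r, h1, h2, h3, h4 =>
      refine ⟨(b :: r, a - b), ⟨⟨by simpa using h1, (List.nodup_cons.1 h2).2, (List.isChain_cons_cons.1 h3).2, ?_⟩, ?_⟩, ?_⟩
      · rw [List.getLast?_cons_cons] at h4
        exact h4
      · exact (List.isChain_cons_cons.1 h3).1.2.2
      · simp

theorem Wa_finite (v : ℤ × ℤ) (n : ℕ) (S : Set (ℤ × ℤ)) : (Wa v n S).Finite :=
  (Wk_finite v n).subset fun _ h => h.1

theorem ev_anti (n J : ℕ) (v : ℤ × ℤ) {S T : Set (ℤ × ℤ)} (h : S ⊆ T) : ev n J v T ≤ ev n J v S := by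
  unfold ev
  refine ENNReal.div_le_div_right (Finset.sum_le_sum fun j _ => ?_) _
  refine mul_le_mul_right (Nat.cast_le.2 (Set.ncard_le_ncard ?_ (Wa_finite _ _ _))) _
  exact fun P hP => ⟨hP.1, fun z hz hzS => hP.2 z hz (h hzS)⟩

/-! ### symmetries -/

/-- Translation of a point of the type of `o'` to `o'`. -/
lemma ev_tr' (hs : ASym) (n J : ℕ) {y : ℤ × ℤ} (hy : hon y) {a : ℤ} (hF : F0 y = 3 * a - 2) (S : Set (ℤ × ℤ)) :
    ev n J y S = ev n J o' ((fun z => z + ((-1, 0) - y)) '' S) := by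
  have h1 : ((-1 - y.1) - (0 - y.2)) % 3 = 0 := by
    simp only [F0] at hF
    omega
  have h2 := hs n J _ (Sy.tr (-1 - y.1) (0 - y.2) h1) y S hy
  have e : y + (-1 - y.1, 0 - y.2) = o' := by
    ext <;> simp [o']
  rw [e] at h2
  rw [← h2]
  congr 1

/-- Rotation of a point of the type of `o` to `o'`. -/
lemma ev_ro (hs : ASym) (n J : ℕ) {y : ℤ × ℤ} (hy : hon y) {b : ℤ} (hF : F0 y = 3 * b) (S : Set (ℤ × ℤ)) :
    ev n J y S = ev n J o' ((fun z => y + (-1, 0) - z) '' S) := by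
  have h1 : ((-y.1) - (-y.2)) % 3 = 0 := by
    simp only [F0] at hF
    omega
  have h2 := hs n J _ (Sy.tr (-y.1) (-y.2) h1) y S hy
  have e : y + (-y.1, -y.2) = o := by
    ext <;> simp [o]
  rw [e] at h2
  have h3 := hs n J _ Sy.ro o ((fun z => z + (-y.1, -y.2)) '' S) (by decide)
  have e' : ((-1, 0) : ℤ × ℤ) - o = o' := by
    ext <;> simp [o, o']
  rw [e'] at h3
  rw [← h2, ← h3, Set.image_image]
  congr 1
  ext z
  simp only [Set.mem_image]
  constructor
  · rintro ⟨w, hw, rfl⟩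
    refine ⟨w, hw, ?_⟩
    ext <;> simp <;> ring
  · rintro ⟨w, hw, rfl⟩
    refine ⟨w, hw, ?_⟩
    ext <;> simp <;> ring

lemma ev_empty (n J : ℕ) : ev n J o ∅ ≤ 1 := by
  unfold ev
  have : ∀ j, Wa o (n - j) ∅ = Wk o (n - j) := fun j => by
    ext P
    simp [Wa]
  simp only [this]
  exact ENNReal.div_self_le_one

lemma ev_le_one' (hs : ASym) (n J : ℕ) (S : Set (ℤ × ℤ)) : ev n J o' S ≤ 1 := by
  refine (ev_anti n J o' (Set.empty_subset S)).trans ?_
  have h3 := hs n J _ Sy.ro o ∅ (by decide)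
  have e' : ((-1, 0) : ℤ × ℤ) - o = o' := by
    ext <;> simp [o, o']
  rw [e', Set.image_empty] at h3
  rw [h3]
  exact ev_empty n J

theorem ev_le_one (hs : ASym) (n J : ℕ) {v : ℤ × ℤ} (hv : hon v) (S : Set (ℤ × ℤ)) : ev n J v S ≤ 1 := by
  have h1 : (F0 v % 3 = 0) ∨ (F0 v % 3 = 1) := by
    simp only [hon, F0] at hv ⊢
    omega
  rcases h1 with h1 | h1
  · rw [ev_ro hs n J hv (b := F0 v / 3) (by omega)]
    exact ev_le_one' hs n J _
  · rw [ev_tr' hs n J hv (a := F0 v / 3 + 1) (by omega)]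
    exact ev_le_one' hs n J _

theorem ev_left (hs : ASym) {n J : ℕ} {𝓛 : Law} (h𝓛 : Dom2 n J 𝓛) {a : ℤ} {y : ℤ × ℤ} (hy : hon y) (hF : F0 y = 3 * a - 2)
    {l : List Blk} {S : Set (ℤ × ℤ)} (hS : ∀ z ∈ VL l, y + (1, 0) + z ∈ S) : ev n J y S ≤ 2 * 𝓛.av (VL l) := by
  rw [ev_tr' hs n J hy hF]
  refine (ev_anti n J o' (S := VL l) ?_).trans (h𝓛 _)
  intro z hz
  refine ⟨y + (1, 0) + z, hS z hz, ?_⟩
  ext <;> simp <;> ring

/-! ### the reversed word -/

lemma ptz_E {l : List Blk} (hl : l ≠ []) : ptz l = E (jn l) + (1, 0) := by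
  have h1 := snd_ptz l
  have h2 := jn_E hl
  have h3 := F0_ptz l
  have h4 := (jn_Br hl).2
  have h5 := hj_pos hl
  have h6 : F0 (E (jn l)) = 3 * (hj l : ℤ) - 2 := by
    rw [h4]
    omega
  have h7 : (ptz l).2 = (E (jn l)).2 := by rw [h1, h2]
  simp only [F0] at h3 h6
  ext
  · simp only [Prod.fst_add]
    omega
  · simp only [Prod.snd_add]
    omega

lemma rvl_ne {l : List Blk} (hl : l ≠ []) : rvl l ≠ [] := by
  unfold rvl
  simpa using hl

lemma VL_iff {l : List Blk} (hl : l ≠ []) (z : ℤ × ℤ) : z ∈ VL l ↔ z ∈ V (jn l) := (mem_jn hl z).symm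

lemma VL_nil : VL ([] : List Blk) = ∅ := by
  ext z
  simp only [VL, Set.mem_setOf_eq, Set.mem_empty_iff_false, iff_false]
  rintro ⟨l1, c, l2, u, h, -⟩
  exact absurd h.symm (by simp)

theorem VL_rvl (l : List Blk) (z : ℤ × ℤ) : z ∈ VL (rvl l) ↔ ptz l - (1, 0) - z ∈ VL l := by
  by_cases hl : l = []
  · subst hl
    have : rvl [] = [] := rfl
    rw [this, VL_nil]
    simp
  · rw [VL_iff (rvl_ne hl), VL_iff hl]
    have h1 : jn (rvl l) = rvb (jn l) := jn_rv hl
    rw [h1, (rvb_br (jn_Br hl)).2.2.2.2 z, ptz_E hl]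
    have : E (jn l) + (1, 0) - (1, 0) = E (jn l) := by ring
    rw [this]

theorem ev_right (hs : ASym) {n J : ℕ} {𝓛 : Law} (h𝓛 : Dom2 n J 𝓛) {b : ℤ} {y q : ℤ × ℤ} (hy : hon y) (hF : F0 y = 3 * b)
    {l : List Blk} (hq : y = q + ptz l) {S : Set (ℤ × ℤ)} (hS : ∀ z ∈ VL l, q + z ∈ S) : ev n J y S ≤ 2 * er 𝓛 l := by
  unfold er
  rw [ev_ro hs n J hy hF]
  refine (ev_anti n J o' (S := VL (rvl l)) ?_).trans (h𝓛 _)
  intro z hz
  rw [VL_rvl] at hz
  refine ⟨q + (ptz l - (1, 0) - z), hS _ hz, ?_⟩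
  rw [hq]
  ext <;> simp <;> ring

/-! ### the reversal in sums -/

lemma rvl_rvl (l : List Blk) : rvl (rvl l) = l := by
  unfold rvl
  rw [List.map_reverse, List.reverse_reverse, List.map_map]
  have : (rvB ∘ rvB) = id := by
    funext c
    exact rvB_rvB c
  rw [this, List.map_id]

lemma hj_rvl (l : List Blk) : hj (rvl l) = hj l := by
  unfold rvl hj
  rw [List.map_reverse, List.sum_reverse, List.map_map]
  congr 1
  exact List.map_congr_left fun c _ => htw_rvB c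

lemma ln_rvl (l : List Blk) : ln (rvl l) = ln l := by
  unfold rvl ln
  rw [List.map_reverse, List.sum_reverse, List.map_map]
  congr 1
  exact List.map_congr_left fun c _ => by simp [len_rvB c]

lemma wj_rvl (l : List Blk) : wj (rvl l) = wj l := by
  unfold rvl wj
  rw [List.map_reverse, List.prod_reverse, List.map_map]
  congr 1
  exact List.map_congr_left fun c _ => by simp [len_rvB c]

/-- The reversal as a permutation of the words. -/
def rvlE : Equiv.Perm (List Blk) := ⟨rvl, rvl, rvl_rvl, rvl_rvl⟩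

/-- Reversal of the words in the sum. -/
theorem tsum_er (𝓛 : Law) (L k : ℕ) : ∑' l : List Blk, ind (hj l = k ∧ ln l ≤ L) * (wj l * er 𝓛 l) = ak 𝓛 L k := by
  unfold ak
  rw [← rvlE.tsum_eq]
  refine tsum_congr fun l => ?_
  show ind (hj (rvl l) = k ∧ ln (rvl l) ≤ L) * (wj (rvl l) * er 𝓛 (rvl l)) = _
  unfold er
  rw [hj_rvl, ln_rvl, wj_rvl, rvl_rvl]

end Pool.Agent.EVN.Pg
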