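import Pool.Agent.EVN.P.ExDefs

/-!
Project EVN, block P1: every long walk leaves the columns `a, .., b` inside the box through the sides,
for at least two of the three directions.
-/

namespace Pool.Agent.EVN

open Pool.Agent.Hhelper14.SAW Pool.Agent.HHP Pool.Agent.HEP Pool.Agent.PLY.G Pool.Agent.BEX.F
open scoped ENNReal

lemma rt3_inj (i : Fin 3) : Function.Injective (rt3 i) := by
  intro x y h
  obtain ⟨a, b⟩ := x
  obtain ⟨c, d⟩ := y
  fin_cases i <;> simp [rt3, L, Prod.ext_iff] at h ⊢ <;> omega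

lemma rt3_adj (i : Fin 3) {x y : ℤ × ℤ} (h : Adj x y) : Adj (rt3 i x) (rt3 i y) := by
  obtain ⟨a, b⟩ := x
  obtain ⟨c, d⟩ := y
  obtain ⟨h1, h2, h3⟩ := h
  fin_cases i <;> simp only [rt3, Adj, hon, U, L, Prod.mk_sub_mk, id, ne_eq] at * <;>
    refine ⟨by omega, by omega, ?_⟩ <;> rcases h3 with h3 | h3 | h3 | h3 | h3 | h3 <;> omega

lemma rt3_o (i : Fin 3) : rt3 i o = o := by
  fin_cases i <;> simp [rt3, L, o]

/-- The membership in the region. -/
def Rg (D : ℕ) (a b : ℤ) (z : ℤ × ℤ) : Prop := z ∈ Bx D ∧ 3 * a ≤ F0 z ∧ F0 z ≤ 3 * b + 1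

lemma first_exit {p : ℤ × ℤ → Prop} {s : ℤ × ℤ} (hs : p s) : ∀ w : List (ℤ × ℤ), w.getLast? = some s →
    (∃ x ∈ w, ¬ p x) → ∃ t y z r, w = t ++ y :: z :: r ∧ ¬ p y ∧ ∀ x ∈ z :: r, p x := by
  intro w
  induction w with
  | nil => intro h; simp at h
  | cons x w ih =>
    intro hl hex
    by_cases h : ∃ u ∈ w, ¬ p u
    · have hw : w ≠ [] := by
        rintro rfl
        simp at h
      have hl' : w.getLast? = some s := by
        rw [← hl, List.getLast?_cons, List.getLast?_eq_some_getLast hw]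
        simp
      obtain ⟨t, y, z, r, h1, h2, h3⟩ := ih hl' h
      exact ⟨x :: t, y, z, r, by rw [h1]; rfl, h2, h3⟩
    · push Not at h
      obtain ⟨u, hu, hpu⟩ := hex
      have hux : u = x := by
        rcases List.mem_cons.mp hu with hu | hu
        · exact hu
        · exact absurd (h u hu) hpu
      subst hux
      cases w with
      | nil =>
        simp at hl
        subst hl
        exact absurd hs hpu
      | cons z r => exact ⟨[], u, z, r, rfl, hpu, h⟩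

/-- Leaving the columns happens by a step across a column line. -/
lemma step_out {a b : ℤ} {y z : ℤ × ℤ} (h : Adj y z) (hz : 3 * a ≤ F0 z ∧ F0 z ≤ 3 * b + 1)
    (hy : ¬ (3 * a ≤ F0 y ∧ F0 y ≤ 3 * b + 1)) :
    (F0 z = 3 * b + 1 ∧ y = z + (1, 0)) ∨ (F0 z = 3 * a ∧ y = z + (-1, 0)) := by
  obtain ⟨y1, y2⟩ := y
  obtain ⟨z1, z2⟩ := z
  obtain ⟨h1, h2, h3⟩ := h
  simp only [hon, U, F0, Prod.mk_sub_mk, Prod.mk_add_mk, Prod.mk.injEq, ne_eq] at *
  rcases h3 with h3 | h3 | h3 | h3 | h3 | h3 <;> omega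

/-- One direction: a good beginning, or an exit through the far ends of the strip. -/
lemma dich {D : ℕ} {a b : ℤ} (ha : a ≤ 0) (hb : 0 ≤ b) (i : Fin 3) {w : List (ℤ × ℤ)} (hn : w.Nodup)
    (hc : HChain w) (hl : w.getLast? = some o) (hex : ∃ x ∈ w, rt3 i x ∉ Bx D) :
    (∃ t η, w.map (rt3 i) = t ++ η ∧ η ∈ Ex o D a b) ∨
    ∃ t y z r, w = t ++ y :: z :: r ∧ (3 * a ≤ F0 (rt3 i y) ∧ F0 (rt3 i y) ≤ 3 * b + 1) ∧
      rt3 i y ∉ Bx D ∧ ∀ x ∈ z :: r, Rg D a b (rt3 i x) := by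
  have hs : Rg D a b (rt3 i o) := by
    rw [rt3_o]
    refine ⟨?_, ?_, ?_⟩
    · simp [Bx, F0, o]
    · simp [F0, o]; omega
    · simp [F0, o]; omega
  obtain ⟨x, hx, hx2⟩ := hex
  obtain ⟨t, y, z, r, h1, h2, h3⟩ := first_exit (p := fun x => Rg D a b (rt3 i x)) hs w hl
    ⟨x, hx, fun h => hx2 h.1⟩
  by_cases hF : 3 * a ≤ F0 (rt3 i y) ∧ F0 (rt3 i y) ≤ 3 * b + 1
  · right
    exact ⟨t, y, z, r, h1, hF, fun h => h2 ⟨h, hF⟩, h3⟩
  · left
    refine ⟨t.map (rt3 i), rt3 i y :: rt3 i z :: r.map (rt3 i), by rw [h1]; simp, ?_⟩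
    have hcw : HChain (y :: z :: r) := by
      rw [h1] at hc
      exact (List.isChain_append.mp hc).2.1
    have hadj : Adj (rt3 i y) (rt3 i z) := rt3_adj i (List.isChain_cons_cons.mp hcw).1
    have hz := h3 z (by simp)
    have hch : HChain (rt3 i y :: rt3 i z :: r.map (rt3 i)) := by
      have : HChain ((y :: z :: r).map (rt3 i)) := by
        unfold HChain
        rw [List.isChain_map]
        exact hcw.imp fun _ _ h => rt3_adj i h
      simpa using this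
    have hnd : (rt3 i y :: rt3 i z :: r.map (rt3 i)).Nodup := by
      have h4 : (y :: z :: r).Nodup := by
        rw [h1] at hn
        exact (List.nodup_append.mp hn).2.1
      have := h4.map (rt3_inj i)
      simpa using this
    have hlast : (rt3 i y :: rt3 i z :: r.map (rt3 i)).getLast? = some o := by
      have h4 : (y :: z :: r).getLast? = some o := by
        rw [h1, List.getLast?_append_of_ne_nil _ (by simp)] at hl
        exact hl
      have h5 : ((y :: z :: r).map (rt3 i)).getLast? = some (rt3 i o) := by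
        rw [List.getLast?_map, h4]; rfl
      rw [rt3_o] at h5
      simpa using h5
    have hst : St D a b (rt3 i z :: r.map (rt3 i)) := by
      intro u hu
      have hu' : u ∈ (z :: r).map (rt3 i) := by simpa using hu
      obtain ⟨v, hv, rfl⟩ := List.mem_map.mp hu'
      exact h3 v hv
    rcases step_out hadj ⟨hz.2.1, hz.2.2⟩ hF with ⟨h5, h6⟩ | ⟨h5, h6⟩
    · left
      refine ⟨rt3 i z, r.map (rt3 i), by rw [← h6], h5, hnd, hch, hlast, hst⟩
    · right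
      refine ⟨rt3 i z, r.map (rt3 i), by rw [← h6], h5, hnd, hch, hlast, hst⟩

/-- Two bad directions exclude each other. -/
lemma no_two {D : ℕ} {a b : ℤ} (ha : -(D : ℤ) ≤ a) (hb : b < D) {i j : Fin 3} (hij : i ≠ j) {y : ℤ × ℤ}
    (h1 : 3 * a ≤ F0 (rt3 i y) ∧ F0 (rt3 i y) ≤ 3 * b + 1) (h2 : rt3 i y ∉ Bx D)
    (h3 : 3 * a ≤ F0 (rt3 j y) ∧ F0 (rt3 j y) ≤ 3 * b + 1) (ha0 : a ≤ 0) (hb0 : 0 ≤ b) : False := by
  apply h2
  obtain ⟨p, q⟩ := y
  simp only [Bx, Set.mem_ofPred_eq, abs_le]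
  fin_cases i <;> fin_cases j <;> simp only [rt3, L, F0, id] at * <;> first | exact absurd rfl hij | omega

lemma no_two' {D : ℕ} {a b : ℤ} (ha : -(D : ℤ) ≤ a) (hb : b < D) (ha0 : a ≤ 0) (hb0 : 0 ≤ b) {i j : Fin 3}
    (hij : i ≠ j) {w : List (ℤ × ℤ)}
    (hi : ∃ t y z r, w = t ++ y :: z :: r ∧ (3 * a ≤ F0 (rt3 i y) ∧ F0 (rt3 i y) ≤ 3 * b + 1) ∧
      rt3 i y ∉ Bx D ∧ ∀ x ∈ z :: r, Rg D a b (rt3 i x))
    (hj : ∃ t y z r, w = t ++ y :: z :: r ∧ (3 * a ≤ F0 (rt3 j y) ∧ F0 (rt3 j y) ≤ 3 * b + 1) ∧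
      rt3 j y ∉ Bx D ∧ ∀ x ∈ z :: r, Rg D a b (rt3 j x)) : False := by
  obtain ⟨t, y, z, r, e1, f1, g1, k1⟩ := hi
  obtain ⟨t', y', z', r', e2, f2, g2, k2⟩ := hj
  have s1 : (y :: z :: r) <:+ w := ⟨t, e1.symm⟩
  have s2 : (y' :: z' :: r') <:+ w := ⟨t', e2.symm⟩
  rcases List.suffix_or_suffix_of_suffix s1 s2 with h | h
  · have hy : y ∈ y' :: z' :: r' := h.subset (by simp)
    rcases List.mem_cons.mp hy with hy | hy
    · subst hy
      exact no_two ha hb hij f1 g1 f2 ha0 hb0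
    · exact no_two ha hb hij f1 g1 (k2 y hy).2 ha0 hb0
  · have hy : y' ∈ y :: z :: r := h.subset (by simp)
    rcases List.mem_cons.mp hy with hy | hy
    · subst hy
      exact no_two ha hb (Ne.symm hij) f2 g2 f1 ha0 hb0
    · exact no_two ha hb (Ne.symm hij) f2 g2 (k1 y' hy).2 ha0 hb0

lemma card_box {D : ℕ} {w : List (ℤ × ℤ)} (hn : w.Nodup) (h : ∀ x ∈ w, x ∈ Bx D) :
    w.length ≤ (6 * D + 1) ^ 2 := by
  have h1 : w.length = (w.map fun z => (F0 z, z.2)).toFinset.card := by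
    rw [List.toFinset_card_of_nodup, List.length_map]
    refine hn.map ?_
    intro x y hxy
    obtain ⟨p, q⟩ := x
    obtain ⟨p', q'⟩ := y
    simp only [F0, Prod.mk.injEq] at hxy ⊢
    omega
  rw [h1]
  have h2 : (w.map fun z => (F0 z, z.2)).toFinset ⊆
      (Finset.Icc (-(3 * D : ℤ)) (3 * D)) ×ˢ (Finset.Icc (-(3 * D : ℤ)) (3 * D)) := by
    intro u hu
    rw [List.mem_toFinset, List.mem_map] at hu
    obtain ⟨z, hz, rfl⟩ := hu
    have := h z hz
    simp only [Bx, Set.mem_ofPred_eq, abs_le] at this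
    simp only [Finset.mem_product, Finset.mem_Icc]
    exact this
  refine (Finset.card_le_card h2).trans ?_
  rw [Finset.card_product, Int.card_Icc]
  have : (3 * (D : ℤ) + 1 - -(3 * (D : ℤ))).toNat = 6 * D + 1 := by omega
  rw [this, sq]

lemma ex_out {D k : ℕ} (i : Fin 3) {w : List (ℤ × ℤ)} (hw : w ∈ Wk o k) (hk : (6 * D + 1) ^ 2 ≤ k) :
    ∃ x ∈ w, rt3 i x ∉ Bx D := by
  by_contra h
  push Not at h
  obtain ⟨h1, h2, -, -⟩ := hw
  have := card_box (D := D) (w := w.map (rt3 i)) (h2.map (rt3_inj i)) (by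
    intro x hx
    obtain ⟨y, hy, rfl⟩ := List.mem_map.mp hx
    exact h y hy)
  rw [List.length_map, h1] at this
  omega

/-- THREE DIRECTIONS: for one of the three rotations both walks have a good beginning. -/
theorem three_dir {D k k' : ℕ} {a b : ℤ} (ha : -(D : ℤ) ≤ a) (ha0 : a ≤ 0) (hb0 : 0 ≤ b) (hb : b < D)
    {w w' : List (ℤ × ℤ)} (hw : w ∈ Wk o k) (hw' : w' ∈ Wk o k') (hk : (6 * D + 1) ^ 2 ≤ k)
    (hk' : (6 * D + 1) ^ 2 ≤ k') :
    ∃ i : Fin 3, (∃ t η, w.map (rt3 i) = t ++ η ∧ η ∈ Ex o D a b) ∧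
      (∃ t η, w'.map (rt3 i) = t ++ η ∧ η ∈ Ex o D a b) := by
  have d1 := fun i => dich ha0 hb0 i hw.2.1 hw.2.2.1 hw.2.2.2 (ex_out i hw hk)
  have d2 := fun i => dich ha0 hb0 i hw'.2.1 hw'.2.2.1 hw'.2.2.2 (ex_out i hw' hk')
  by_contra hcon
  have key : ∀ i : Fin 3, (∃ t y z r, w = t ++ y :: z :: r ∧
        (3 * a ≤ F0 (rt3 i y) ∧ F0 (rt3 i y) ≤ 3 * b + 1) ∧
        rt3 i y ∉ Bx D ∧ ∀ x ∈ z :: r, Rg D a b (rt3 i x)) ∨
      (∃ t y z r, w' = t ++ y :: z :: r ∧ (3 * a ≤ F0 (rt3 i y) ∧ F0 (rt3 i y) ≤ 3 * b + 1) ∧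
        rt3 i y ∉ Bx D ∧ ∀ x ∈ z :: r, Rg D a b (rt3 i x)) := by
    intro i
    rcases d1 i with h1 | h1
    · rcases d2 i with h2 | h2
      · exact absurd ⟨i, h1, h2⟩ hcon
      · exact Or.inr h2
    · exact Or.inl h1
  have n01 : (0 : Fin 3) ≠ 1 := by decide
  have n02 : (0 : Fin 3) ≠ 2 := by decide
  have n12 : (1 : Fin 3) ≠ 2 := by decide
  rcases key 0 with h0 | h0 <;> rcases key 1 with h1 | h1 <;> rcases key 2 with h2 | h2
  · exact no_two' ha hb ha0 hb0 n01 h0 h1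
  · exact no_two' ha hb ha0 hb0 n01 h0 h1
  · exact no_two' ha hb ha0 hb0 n02 h0 h2
  · exact no_two' ha hb ha0 hb0 n12 h1 h2
  · exact no_two' ha hb ha0 hb0 n12 h1 h2
  · exact no_two' ha hb ha0 hb0 n02 h0 h2
  · exact no_two' ha hb ha0 hb0 n01 h0 h1
  · exact no_two' ha hb ha0 hb0 n01 h0 h1

/-- Exits are beginnings. -/
theorem ex_beg {D : ℕ} {a b : ℤ} {η : List (ℤ × ℤ)} (h : η ∈ Ex o D a b) :
    Beg o ((6 * D + 1) ^ 2) η := by
  rcases h with ⟨z, r, h1, h2, h3, h4, h5, h6⟩ | ⟨z, r, h1, h2, h3, h4, h5, h6⟩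
  all_goals
    have h7 : (z :: r).length ≤ (6 * D + 1) ^ 2 := by
      refine card_box ?_ fun x hx => (h6 x hx).1
      rw [h1] at h3
      exact (List.nodup_cons.mp h3).2
    refine ⟨?_, ?_, h3, h4, h5⟩
    · rw [h1]; simp
    · rw [h1]; simp only [List.length_cons] at h7 ⊢; omega

end Pool.Agent.EVN
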