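import Pool.Agent.EVN.Stmt

/-!
Project EVN, block P: definitions of the exits.
-/

namespace Pool.Agent.EVN

open Pool.Agent.Hhelper14.SAW Pool.Agent.HHP Pool.Agent.HEP Pool.Agent.PLY.G Pool.Agent.BEX.F
open scoped ENNReal

/-- All vertices are in the box and in the columns `a, .., b`. -/
def St (D : ℕ) (a b : ℤ) (r : List (ℤ × ℤ)) : Prop := ∀ z ∈ r, z ∈ Bx D ∧ 3 * a ≤ F0 z ∧ F0 z ≤ 3 * b + 1

/-- Beginnings (latest vertex first) which leave the columns `a, .., b` to the right by their last step. -/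
def RtE (s : ℤ × ℤ) (D : ℕ) (a b : ℤ) : Set (List (ℤ × ℤ)) :=
  {w | ∃ z r, w = (z + (1, 0)) :: z :: r ∧ F0 z = 3 * b + 1 ∧ w.Nodup ∧ HChain w ∧ w.getLast? = some s ∧
    St D a b (z :: r)}

/-- Beginnings (latest vertex first) which leave the columns `a, .., b` to the left by their last step. -/
def LfE (s : ℤ × ℤ) (D : ℕ) (a b : ℤ) : Set (List (ℤ × ℤ)) :=
  {w | ∃ z r, w = (z + (-1, 0)) :: z :: r ∧ F0 z = 3 * a ∧ w.Nodup ∧ HChain w ∧ w.getLast? = some s ∧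
    St D a b (z :: r)}

/-- Both. -/
def Ex (s : ℤ × ℤ) (D : ℕ) (a b : ℤ) : Set (List (ℤ × ℤ)) := RtE s D a b ∪ LfE s D a b

/-- The value of a pair of beginnings. -/
noncomputable def Fv (n J : ℕ) (q : List (ℤ × ℤ) × List (ℤ × ℤ)) : ℝ≥0∞ :=
  xE ^ (q.1.length - 1) * ev n J q.1.headI {z | z ∈ q.1.tail} *
    (xE ^ (q.2.length - 1) * ev n J q.2.headI {z | z ∈ q.2.tail})

/-- Pairs of exits which meet only at the start. -/
def QE (D : ℕ) (a b : ℤ) : Set (List (ℤ × ℤ) × List (ℤ × ℤ)) :=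
  {q | q.1 ∈ Ex o D a b ∧ q.2 ∈ Ex o D a b ∧ ∀ z ∈ q.1, z ∈ q.2 → z = o}

/-- The three rotations about `o`. -/
def rt3 : Fin 3 → (ℤ × ℤ) → (ℤ × ℤ)
  | 0 => id
  | 1 => fun z => L (L z)
  | 2 => fun z => L (L (L (L z)))

end Pool.Agent.EVN
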