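import Pool.Agent.EVN.P.Defs

/-!
EVN block P, module Wd (helper49): PATHS AS WORDS, the block of a mark, sizes. `vl l`: the list of the vertices of a word (earliest first).
-/

namespace Pool.Agent.EVN.Pg

open Pool.Agent.Hhelper14.SAW Pool.Agent.HHP Pool.Agent.HEP Pool.Agent.PLY.G Pool.Agent.BEX.F
open scoped ENNReal

/-! ### the list of vertices of a word -/

/-- The vertices of a word, earliest first. -/
def vl : List Blk → List (ℤ × ℤ)
  | [] => []
  | c :: l => V c.1 ++ (vl l).map (fun z => (E c.1 + (1, 0)) + z)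

lemma vl_jn {l : List Blk} (hl : l ≠ []) : vl l = V (jn l) := by
  induction l with
  | nil => exact absurd rfl hl
  | cons c m ih =>
    by_cases h : m = []
    · subst h
      rw [jn_single]
      simp [vl]
    · rw [jn_cons h, (app_right (Q := jn m) c.2.br.tn_rt).1, ← ih h]
      rfl

lemma mem_vl (l : List Blk) (z : ℤ × ℤ) : z ∈ vl l ↔ z ∈ VL l := by
  by_cases hl : l = []
  · subst hl
    constructor
    · intro h
      simp [vl] at h
    · rintro ⟨l1, c, l2, u, h, -⟩
      exact absurd h.symm (by simp)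
  · rw [vl_jn hl, mem_jn hl]
    rfl

lemma vl_append (l m : List Blk) : vl (l ++ m) = vl l ++ (vl m).map (fun z => ptz l + z) := by
  induction l with
  | nil =>
    rw [List.nil_append, ptz_nil]
    simp [vl]
  | cons c l ih =>
    rw [List.cons_append]
    simp only [vl]
    rw [ih, List.map_append, List.map_map, List.append_assoc, ptz_cons]
    congr 2
    refine List.map_congr_left fun z _ => ?_
    simp only [Function.comp]
    ring

lemma ln_vl (l : List Blk) : ln l = (vl l).length := by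
  induction l with
  | nil => rfl
  | cons c l ih =>
    have h1 : ln (c :: l) = (c.1.length + 1) + ln l := rfl
    have h2 : (V c.1).length = c.1.length + 1 := vs_length _ _ _
    rw [h1, ih]
    simp only [vl, List.length_append, List.length_map, h2]

lemma vl_nodup (l : List Blk) : (vl l).Nodup := by
  by_cases hl : l = []
  · subst hl; simp [vl]
  · rw [vl_jn hl]; exact (jn_In hl).1

/-- Number of vertices of a word. -/
theorem ln_len {l : List Blk} (hl : l ≠ []) : ln l = (V (jn l)).length := by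
  rw [ln_vl, vl_jn hl]

/-! ### paths as words -/

private lemma Wd_hp : Dom (fun z : ℤ × ℤ => hon z ∧ 0 ≤ F0 z) := by
  refine ⟨⟨by decide, by decide⟩, fun x h => h.1, fun x h => ?_⟩
  have := h.2
  simp only [slit, F0] at *
  omega

private lemma Wd_surj {R : List (ℤ × ℤ)} (h0 : R.head? = some o) (hc : HChain R) (hn : R.Nodup)
    (hp : ∀ x ∈ R, hon x ∧ 0 ≤ F0 x) : ∃ W, V W = R := by
  obtain ⟨S, rfl⟩ : ∃ S, R = o :: S := by
    cases R with
    | nil => simp at h0
    | cons a S =>
      simp only [List.head?_cons, Option.some.injEq] at h0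
      exact ⟨S, by rw [h0]⟩
  have hs : IsSaw (fun z => hon z ∧ 0 ≤ F0 z) S.length ((o :: S).reverse ++ [o']) := by
    refine ⟨by simp, ?_, ?_, S.reverse, by simp, ?_⟩
    · rw [List.nodup_append]
      refine ⟨List.nodup_reverse.2 hn, by simp, ?_⟩
      intro x hx y hy hxy
      rw [List.mem_singleton] at hy
      rw [List.mem_reverse] at hx
      have h3 := (hp x hx).2
      rw [hxy, hy] at h3
      revert h3
      decide
    · refine List.isChain_append.2 ⟨?_, by simp, ?_⟩
      · rw [List.isChain_reverse]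
        exact List.IsChain.imp (fun _ _ h => h.symm) hc
      · intro x hx y hy
        simp only [List.reverse_cons, List.getLast?_append, List.getLast?_singleton, Option.mem_def,
          Option.some_or, Option.some.injEq, List.head?_cons] at hx hy
        rw [← hx, ← hy]
        exact adj_o
    · intro x hx
      apply hp
      simpa [or_comm] using hx
  obtain ⟨W, -, -, -, h⟩ := toL_surj Wd_hp hs
  refine ⟨W, ?_⟩
  unfold toL at h
  exact List.reverse_injective (List.append_cancel_right h)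

private lemma Wd_last (W : List Bool) : (V W).getLast? = some (E W) := by
  obtain ⟨r, hr⟩ := toL_cases W
  unfold toL at hr
  have hne : (V W) ≠ [] := List.ne_nil_of_mem (E_mem W)
  rw [← List.head?_reverse]
  cases hV : (V W).reverse with
  | nil => exact absurd (List.reverse_eq_nil_iff.1 hV) hne
  | cons a l =>
    rw [hV] at hr
    simp only [List.cons_append, List.cons.injEq] at hr
    rw [hr.1]; rfl

/-- A path `R` (earliest vertex first) from `o` in the columns `0, ..., k` whose last vertex is at the right border is a word of height `k + 1`. -/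
theorem word_of {k : ℕ} {R : List (ℤ × ℤ)} (h0 : R.head? = some o) (hc : HChain R) (hn : R.Nodup) (hh : ∀ x ∈ R, hon x)
    (hp : ∀ x ∈ R, 0 ≤ F0 x ∧ F0 x ≤ 3 * k + 1) {e : ℤ × ℤ} (he : R.getLast? = some e) (he' : F0 e = 3 * k + 1) :
    ∃ l : List Blk, l ≠ [] ∧ hj l = k + 1 ∧ V (jn l) = R ∧ ptz l = e + (1, 0) := by
  obtain ⟨W, hW⟩ := Wd_surj h0 hc hn fun x hx => ⟨hh x hx, (hp x hx).1⟩
  have hE : E W = e := by
    have := Wd_last W
    rw [hW, he, Option.some.injEq] at this
    exact this.symm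
  have hBr : Br k W := ⟨⟨by rw [hW]; exact hn, fun z hz => hp z (by rw [← hW]; exact hz)⟩, by rw [hE]; exact he'⟩
  obtain ⟨l, h1, h2, h3⟩ := jn_surj hBr
  refine ⟨l, h1, h3, by rw [h2, hW], ?_⟩
  have h4 := F0_ptz l
  have h5 := snd_ptz l
  have h6 := jn_E h1
  rw [h2, hE] at h6
  rw [h3] at h4
  simp only [F0] at h4 he'
  push_cast at h4
  ext
  · simp only [Prod.fst_add]
    omega
  · simp only [Prod.snd_add]
    omega

/-! ### the block of a mark -/

private lemma Wd_split {α : Type*} {X Y A B : List α} {z : α} (h : X ++ Y = A ++ z :: B) :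
    (∃ X', X = A ++ z :: X' ∧ B = X' ++ Y) ∨ ∃ A', A = X ++ A' ∧ Y = A' ++ z :: B := by
  rcases List.append_eq_append_iff.1 h with ⟨A', h1, h2⟩ | ⟨X', h1, h2⟩
  · right
    exact ⟨A', h1, h2⟩
  · cases X' with
    | nil =>
      right
      refine ⟨[], by simpa using h1.symm, by simpa using h2.symm⟩
    | cons x X' =>
      left
      simp only [List.cons_append, List.cons.injEq] at h2
      obtain ⟨rfl, h2⟩ := h2
      exact ⟨X', h1, h2⟩

private lemma Wd_cut (l : List Blk) : ∀ (A B : List (ℤ × ℤ)) (z : ℤ × ℤ), vl l = A ++ z :: B →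
    ∃ l1 c l2 u, l = l1 ++ c :: l2 ∧ u ∈ V (c : Blk).1 ∧ z = ptz l1 + u ∧ (∀ w ∈ VL l1, w ∈ A) ∧
      (∀ w ∈ VL l2, ptz (l1 ++ [c]) + w ∈ B) := by
  induction l with
  | nil => intro A B z h; exact absurd h.symm (by simp [vl])
  | cons c l ih =>
    intro A B z h
    rcases Wd_split h with ⟨X', h1, h2⟩ | ⟨A', h1, h2⟩
    · refine ⟨[], c, l, z, rfl, by rw [h1]; simp, by rw [ptz_nil, zero_add], ?_, ?_⟩
      · intro w hw
        rw [← mem_vl] at hw
        simp [vl] at hw
      · intro w hw
        rw [h2, List.mem_append]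
        right
        refine List.mem_map.2 ⟨w, (mem_vl l w).2 hw, ?_⟩
        rw [List.nil_append, ptz_cons, ptz_nil, add_zero]
    · obtain ⟨A0, Y0, h3, h4, h5⟩ := List.map_eq_append_iff.1 h2
      obtain ⟨z0, B0, h6, h7, h8⟩ := List.map_eq_cons_iff.1 h5
      rw [h6] at h3
      obtain ⟨l1, c', l2, u, g1, g2, g3, g4, g5⟩ := ih A0 B0 z0 h3
      refine ⟨c :: l1, c', l2, u, by rw [g1]; rfl, g2, ?_, ?_, ?_⟩
      · rw [← h7, g3, ptz_cons]
        ring
      · intro w hw
        rw [← mem_vl] at hw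
        simp only [vl, List.mem_append, List.mem_map] at hw
        rw [h1, List.mem_append]
        rcases hw with hw | ⟨w', hw', rfl⟩
        · left; exact hw
        · right
          rw [← h4]
          exact List.mem_map_of_mem (g4 w' ((mem_vl l1 w').1 hw'))
      · intro w hw
        rw [← h8]
        refine List.mem_map.2 ⟨_, g5 w hw, ?_⟩
        rw [List.cons_append, ptz_cons]
        ring

/-- The block of a marked vertex. -/
theorem cut_mark {l : List Blk} (hl : l ≠ []) {A B : List (ℤ × ℤ)} {z : ℤ × ℤ} (h : V (jn l) = A ++ z :: B) :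
    ∃ l1 c l2 u, l = l1 ++ c :: l2 ∧ u ∈ V (c : Blk).1 ∧ z = ptz l1 + u ∧ (∀ w ∈ VL l1, w ∈ A) ∧
      (∀ w ∈ VL l2, ptz (l1 ++ [c]) + w ∈ B) :=
  Wd_cut l A B z (by rw [vl_jn hl, h])

/-! ### sizes -/

/-- A word in the box is short. -/
theorem ln_box {l : List Blk} {D : ℕ} {p : ℤ × ℤ} (h : ∀ z ∈ VL l, p + z ∈ Bx D) : ln l ≤ (6 * D + 1) ^ 2 := by
  rw [ln_vl, ← List.toFinset_card_of_nodup (vl_nodup l)]
  have hinj : Set.InjOn (fun z : ℤ × ℤ => (F0 (p + z), (p + z).2)) ((vl l).toFinset : Set (ℤ × ℤ)) := by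
    intro z _ w _ hzw
    simp only [F0, Prod.fst_add, Prod.snd_add, Prod.mk.injEq] at hzw
    ext <;> omega
  have hmaps : Set.MapsTo (fun z : ℤ × ℤ => (F0 (p + z), (p + z).2)) ((vl l).toFinset : Set (ℤ × ℤ))
      ((Finset.Icc (-(3 * D : ℤ)) (3 * D) ×ˢ Finset.Icc (-(3 * D : ℤ)) (3 * D) : Finset (ℤ × ℤ)) : Set (ℤ × ℤ)) := by
    intro z hz
    have hz' : z ∈ vl l := by simpa using hz
    obtain ⟨h1, h2⟩ := h z ((mem_vl l z).1 hz')
    rw [abs_le] at h1 h2
    simp only [Finset.coe_product, Finset.coe_Icc, Set.mem_prod, Set.mem_Icc]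
    exact ⟨h1, h2⟩
  refine (Finset.card_le_card_of_injOn _ hmaps hinj).trans ?_
  rw [Finset.card_product, Int.card_Icc]
  have : (3 * (D : ℤ) + 1 - -(3 * D)).toNat = 6 * D + 1 := by omega
  rw [this, sq]

/-- A block in the box is small. -/
theorem sz_box {c : Blk} {D : ℕ} {p : ℤ × ℤ} (h : ∀ z ∈ V c.1, p + z ∈ Bx D) : szB c ≤ 6 * D + 2 := by
  unfold szB
  refine max_le ?_ ?_
  · unfold htw
    have h1 := (h _ (E_mem c.1)).1
    have h2 := (h _ (o_mem c.1)).1
    rw [abs_le] at h1 h2
    rw [F0_add] at h1 h2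
    have h3 : F0 ((0, 0) : ℤ × ℤ) = 0 := by simp [F0]
    rw [h3] at h2
    omega
  · unfold wdb
    refine Nat.add_le_add_right (Finset.sup_le ?_) 2
    rintro ⟨y, w⟩ hyw
    rw [Finset.mem_product, List.mem_toFinset, List.mem_toFinset] at hyw
    have h1 := (h _ hyw.1).2
    have h2 := (h _ hyw.2).2
    rw [abs_le] at h1 h2
    simp only [Prod.snd_add] at h1 h2
    show (y.2 - w.2).natAbs ≤ 6 * D
    omega

/-- Sums along an injective map. -/
theorem tsum_le_inj {α β : Type*} {f : α → ℝ≥0∞} {g : β → ℝ≥0∞} (φ : α → β) (hφ : Function.Injective φ)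
    (h : ∀ x, f x ≤ g (φ x)) : ∑' x, f x ≤ ∑' y, g y :=
  (ENNReal.tsum_le_tsum h).trans (ENNReal.tsum_comp_le_tsum_of_injective hφ g)

end Pool.Agent.EVN.Pg
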