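import Pool.Agent.EVN.P.Ev
import Pool.Agent.EVN.P.Wd

/-!
EVN block P, module Gam (helper49): two paths from `v` as one path `B1 ++ v :: B2.reverse`; a path between two borders as a word; sums over marked blocks.
-/

namespace Pool.Agent.EVN.Pg

open Pool.Agent.Hhelper14.SAW Pool.Agent.HHP Pool.Agent.HEP Pool.Agent.PLY.G Pool.Agent.BEX.F
open scoped ENNReal

/-! ### chains -/

lemma chain_hon {y : ℤ × ℤ} {η : List (ℤ × ℤ)} (hne : η ≠ []) (h : HChain (y :: η)) : ∀ z ∈ y :: η, hon z := by
  induction η generalizing y with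
  | nil => exact absurd rfl hne
  | cons a r ih =>
    have h1 := List.isChain_cons_cons.1 h
    intro z hz
    rcases List.mem_cons.1 hz with rfl | hz
    · exact h1.1.1
    · by_cases hr : r = []
      · subst hr
        rw [List.mem_singleton] at hz
        rw [hz]
        exact h1.1.2.1
      · exact ih hr h1.2 z hz

/-- The step across the left side. -/
lemma step_left {y h : ℤ × ℤ} {a : ℤ} (hA : Adj y h) (hy : F0 y = 3 * a - 2) (hh : 3 * a ≤ F0 h) :
    h = y + (1, 0) ∧ F0 h = 3 * a := by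
  obtain ⟨-, -, h3⟩ := hA
  obtain ⟨y1, y2⟩ := y
  obtain ⟨h1, h2⟩ := h
  simp only [U, F0, Prod.mk_sub_mk, Prod.mk_add_mk, Prod.mk.injEq] at *
  omega

/-- The step across the right side. -/
lemma step_right {y h : ℤ × ℤ} {b : ℤ} (hA : Adj y h) (hy : F0 y = 3 * b) (hh : F0 h < 3 * b) :
    y = h + (1, 0) ∧ F0 h = 3 * b - 2 := by
  obtain ⟨h0, h0', h3⟩ := hA
  obtain ⟨y1, y2⟩ := y
  obtain ⟨h1, h2⟩ := h
  simp only [U, F0, hon, Prod.mk_sub_mk, Prod.mk_add_mk, Prod.mk.injEq] at *
  omega

lemma chain_reverse {P : List (ℤ × ℤ)} (h : HChain P) : HChain P.reverse := by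
  have h1 : List.IsChain (fun x y => Adj y x) P := List.IsChain.imp (fun _ _ h => h.symm) h
  exact List.isChain_reverse.2 h1

/-- Two paths which meet only in `v` form one path. -/
theorem gam_chain {B1 B2 : List (ℤ × ℤ)} {v : ℤ × ℤ} (h1 : HChain (B1 ++ [v])) (h2 : HChain (B2 ++ [v])) :
    HChain (B1 ++ v :: B2.reverse) := by
  have h3 : HChain (v :: B2.reverse) := by
    have := chain_reverse h2
    simpa using this
  have h4 := List.isChain_append.1 h1
  refine List.isChain_append.2 ⟨h4.1, h3, ?_⟩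
  intro x hx y hy
  simp only [List.head?_cons, Option.mem_def, Option.some.injEq] at hy
  exact h4.2.2 x hx y (by simp [hy])

theorem gam_nodup {B1 B2 : List (ℤ × ℤ)} {v : ℤ × ℤ} (h1 : (B1 ++ [v]).Nodup) (h2 : (B2 ++ [v]).Nodup)
    (h : ∀ z ∈ B1 ++ [v], z ∈ B2 ++ [v] → z = v) : (B1 ++ v :: B2.reverse).Nodup := by
  rw [List.nodup_append] at h1 h2 ⊢
  obtain ⟨a1, -, a3⟩ := h1
  obtain ⟨b1, -, b3⟩ := h2
  refine ⟨a1, ?_, ?_⟩
  · rw [List.nodup_cons]
    refine ⟨fun hv => ?_, List.nodup_reverse.2 b1⟩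
    exact b3 v (List.mem_reverse.1 hv) v (by simp) rfl
  · intro x hx y hy hxy
    subst hxy
    rcases List.mem_cons.1 hy with rfl | hy
    · exact a3 x hx x (by simp) rfl
    · rw [List.mem_reverse] at hy
      have := h x (by simp [hx]) (by simp [hy])
      subst this
      exact a3 x hx x (by simp) rfl

/-- The part before the mark is determined. -/
theorem split_uniq' {α : Type*} {A A' B B' : List α} {v : α} (h : A ++ v :: B = A' ++ v :: B') (hv : v ∉ A) (hv' : v ∉ A') :
    A = A' ∧ B = B' := by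
  induction A generalizing A' with
  | nil =>
    cases A' with
    | nil => simpa using h
    | cons a A' =>
      exfalso
      simp only [List.nil_append, List.cons_append, List.cons.injEq] at h
      exact hv' (by simp [h.1])
  | cons a A ih =>
    cases A' with
    | nil =>
      exfalso
      simp only [List.nil_append, List.cons_append, List.cons.injEq] at h
      exact hv (by simp [h.1])
    | cons a' A' =>
      simp only [List.cons_append, List.cons.injEq] at h
      obtain ⟨rfl, h⟩ := h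
      have := ih h (fun hh => hv (by simp [hh])) (fun hh => hv' (by simp [hh]))
      exact ⟨by rw [this.1], this.2⟩

/-- A path between two borders is a word. -/
theorem path_word {γ : List (ℤ × ℤ)} {h e : ℤ × ℤ} {a b : ℤ} (hc : HChain γ) (hn : γ.Nodup) (h0 : γ.head? = some h)
    (he : γ.getLast? = some e) (hh : ∀ z ∈ γ, hon z) (hF : F0 h = 3 * a) (hE : F0 e = 3 * b - 2)
    (hs : ∀ z ∈ γ, 3 * a ≤ F0 z ∧ F0 z < 3 * b) :
    ∃ l : List Blk, l ≠ [] ∧ (hj l : ℤ) = b - a ∧ V (jn l) = γ.map (fun z => z - h) ∧ h + ptz l = e + (1, 0) := by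
  have hem : e ∈ γ := List.mem_of_getLast? he
  have hab : a < b := by
    have := hs e hem
    omega
  obtain ⟨k, hk⟩ : ∃ k : ℕ, (k : ℤ) = b - a - 1 := ⟨(b - a - 1).toNat, by omega⟩
  have hhh : hon h := hh h (List.mem_of_mem_head? h0)
  have ht : ∀ z, F0 (z - h) = F0 z - 3 * a := fun z => by rw [F0_sub, hF]
  have hho : ∀ z, hon z → hon (z - h) := by
    intro z hz
    simp only [hon, Prod.fst_sub, Prod.snd_sub, F0] at *
    omega
  have g0 : (γ.map (fun z => z - h)).head? = some o := by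
    rw [List.head?_map, h0]
    simp [o]
    rfl
  have g1 : HChain (γ.map (fun z => z - h)) := by
    rw [HChain, List.isChain_map]
    refine List.IsChain.imp ?_ hc
    intro x y hxy
    refine ⟨hho x hxy.1, hho y hxy.2.1, ?_⟩
    have : x - h - (y - h) = x - y := by ring
    rw [this]
    exact hxy.2.2
  have g2 : (γ.map (fun z => z - h)).Nodup := hn.map fun x y hxy => sub_left_injective hxy
  have g3 : ∀ x ∈ γ.map (fun z => z - h), hon x := by
    intro x hx
    obtain ⟨z, hz, rfl⟩ := List.mem_map.1 hx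
    exact hho z (hh z hz)
  have g4 : ∀ x ∈ γ.map (fun z => z - h), 0 ≤ F0 x ∧ F0 x ≤ 3 * k + 1 := by
    intro x hx
    obtain ⟨z, hz, rfl⟩ := List.mem_map.1 hx
    rw [ht]
    have h5 := hs z hz
    have h6 := hh z hz
    simp only [hon, F0] at h5 h6 ⊢
    omega
  have g5 : (γ.map (fun z => z - h)).getLast? = some (e - h) := by
    rw [List.getLast?_map, he]
    rfl
  obtain ⟨l, h1, h2, h3, h4⟩ := word_of g0 g1 g2 g3 g4 g5 (by rw [ht, hE]; omega)
  refine ⟨l, h1, by rw [h2]; push_cast; omega, h3, ?_⟩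
  rw [h4]
  ring

/-! ### sums over marked blocks -/

/-- A sum over marked blocks as one sum. -/
theorem Mk_eq {β : Type*} (R : ℕ) (g : Blk → ℤ × ℤ → β → ℝ≥0∞) :
    (Mk R fun c u => ∑' t, g c u t) =
      ∑' p : Blk × (ℤ × ℤ) × β, ind (szB p.1 ≤ 60 * R) * (xE ^ (p.1.1.length + 1) *
        (ind (p.2.1 ∈ V p.1.1) * g p.1 p.2.1 p.2.2)) := by
  classical
  unfold Mk
  rw [ENNReal.tsum_prod']
  refine tsum_congr fun c => ?_
  simp only
  rw [ENNReal.tsum_mul_left, ENNReal.tsum_mul_left, ENNReal.tsum_prod']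
  congr 2
  simp only
  have h1 : ∀ u : ℤ × ℤ, ∑' t, ind (u ∈ V c.1) * g c u t = if u ∈ (V c.1).toFinset then ∑' t, g c u t else 0 := by
    intro u
    rw [ENNReal.tsum_mul_left]
    by_cases hu : u ∈ V c.1
    · rw [ind_true hu, one_mul, if_pos (List.mem_toFinset.2 hu)]
    · rw [ind_false hu, zero_mul, if_neg (fun h => hu (List.mem_toFinset.1 h))]
  simp only [h1]
  rw [tsum_eq_sum (s := (V c.1).toFinset)]
  · refine Finset.sum_congr rfl fun u hu => ?_
    rw [if_pos hu]
  · intro u hu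
    rw [if_neg hu]

end Pool.Agent.EVN.Pg
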