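import Pool.Agent.EVN.Defs
import Pool.Agent.RAT.D.Cut1
import Pool.Agent.RAT.H.Words

/-!
EVN, block P: THE MARKED CUT. A path (latest vertex first) which is a bridge seen from its first vertex `q`, with a marked vertex `v`, is a word
`l1 ++ c :: l2` with the mark at the vertex `u` of the block `c`. The vertices of `l1` are visited before `v`, those of `l2` after `v`.
-/

namespace Pool.Agent.EVN.MC

open Pool.Agent.Hhelper14.SAW Pool.Agent.HHP Pool.Agent.HEP Pool.Agent.PLY.G Pool.Agent.BEX.F Pool.Agent.RAT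
open scoped ENNReal

lemma VL_nil : VL [] = ∅ := by
  ext z
  simp only [VL, Set.mem_ofPred_eq, Set.mem_empty_iff_false, iff_false]
  rintro ⟨l1, c, l2, u, h, -⟩
  cases l1 <;> simp at h

lemma mem_VL_cons {c : Blk} {l : List Blk} {z : ℤ × ℤ} :
    z ∈ VL (c :: l) ↔ z ∈ V c.1 ∨ ∃ y ∈ VL l, z = (E c.1 + (1, 0)) + y := by
  constructor
  · rintro ⟨l1, c', l2, u, h1, h2, h3⟩
    cases l1 with
    | nil =>
      simp only [List.nil_append, List.cons.injEq] at h1
      left
      rw [h3, ptz_nil, zero_add, h1.1]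
      exact h2
    | cons a l1 =>
      simp only [List.cons_append, List.cons.injEq] at h1
      obtain ⟨rfl, h1⟩ := h1
      right
      refine ⟨ptz l1 + u, ⟨l1, c', l2, u, h1, h2, rfl⟩, ?_⟩
      rw [h3, ptz_cons]
      ring
  · rintro (h | ⟨y, ⟨l1, c', l2, u, h1, h2, rfl⟩, rfl⟩)
    · exact ⟨[], c, l, z, rfl, h, by rw [ptz_nil, zero_add]⟩
    · exact ⟨c :: l1, c', l2, u, by rw [h1]; rfl, h2, by rw [ptz_cons]; ring⟩

/-- The vertices of a word. -/
lemma mem_VL_jn {l : List Blk} (hl : l ≠ []) {z : ℤ × ℤ} : z ∈ VL l ↔ z ∈ V (jn l) := (mem_jn hl z).symm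

lemma V_jn_cons {c : Blk} {l : List Blk} (hl : l ≠ []) :
    V (jn (c :: l)) = V c.1 ++ (V (jn l)).map (fun z => (E c.1 + (1, 0)) + z) := by
  rw [jn_cons hl, (app_right (Q := jn l) c.2.br.tn_rt).1]

lemma ptz_append (l m : List Blk) : ptz (l ++ m) = ptz l + ptz m := by
  unfold ptz
  rw [List.map_append, List.sum_append]

lemma ln_cons (c : Blk) (l : List Blk) : ln (c :: l) = (c.1.length + 1) + ln l := by
  unfold ln
  rw [List.map_cons, List.sum_cons]

lemma ln_nil : ln [] = 0 := rfl

lemma ln_append (l m : List Blk) : ln (l ++ m) = ln l + ln m := by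
  unfold ln
  rw [List.map_append, List.sum_append]

lemma wj_ln (l : List Blk) : wj l = xE ^ ln l := by
  induction l with
  | nil => rw [wj_nil, ln_nil, pow_zero]
  | cons c l ih => rw [wj_cons, ln_cons, pow_add _ (c.1.length + 1), ih]

lemma len_V (W : List Bool) : (V W).length = W.length + 1 := by
  unfold V
  rw [vs_length]

lemma len_V_jn {l : List Blk} (hl : l ≠ []) : (V (jn l)).length = ln l := by
  induction l with
  | nil => exact absurd rfl hl
  | cons c l ih =>
    by_cases h : l = []
    · subst h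
      rw [jn_single, ln_cons, ln_nil, len_V, add_zero]
    · rw [V_jn_cons h, List.length_append, List.length_map, ih h, ln_cons, len_V]

/-- The block of a marked vertex. -/
lemma vsplit : ∀ (l : List Blk), l ≠ [] → ∀ (x : List (ℤ × ℤ)) (v : ℤ × ℤ) (y : List (ℤ × ℤ)), V (jn l) = x ++ v :: y →
    ∃ l1 c l2 u, l = l1 ++ c :: l2 ∧ u ∈ V (c : Blk).1 ∧ v = ptz l1 + u ∧ (∀ z ∈ VL l1, z ∈ x) ∧
      ∀ z ∈ VL l2, ptz (l1 ++ [c]) + z ∈ y := by
  intro l
  induction l with
  | nil => intro h; exact absurd rfl h
  | cons c m ih =>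
    intro _ x v y h
    by_cases hm : m = []
    · subst hm
      rw [jn_single] at h
      refine ⟨[], c, [], v, rfl, ?_, by rw [ptz_nil, zero_add], ?_, ?_⟩
      · rw [h]; simp
      · rw [VL_nil]; intro z hz; exact absurd hz (Set.notMem_empty z)
      · rw [VL_nil]; intro z hz; exact absurd hz (Set.notMem_empty z)
    · rw [V_jn_cons hm] at h
      rcases List.append_eq_append_iff.1 h with ⟨a, ha, hb⟩ | ⟨a, ha, hb⟩
      · obtain ⟨x', r, h1, h2, h3⟩ := List.map_eq_append_iff.1 hb
        obtain ⟨v', y', h4, h5, h6⟩ := List.map_eq_cons_iff.1 h3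
        subst h4
        obtain ⟨l1, c', l2, u, g1, g2, g3, g4, g5⟩ := ih hm x' v' y' h1
        refine ⟨c :: l1, c', l2, u, by rw [g1]; rfl, g2, ?_, ?_, ?_⟩
        · rw [← h5, g3, ptz_cons]
          ring
        · intro z hz
          rw [ha]
          rcases mem_VL_cons.1 hz with hz | ⟨w, hw, rfl⟩
          · exact List.mem_append_left _ hz
          · apply List.mem_append_right
            rw [← h2]
            exact List.mem_map.2 ⟨w, g4 w hw, rfl⟩
        · intro z hz
          rw [← h6]
          refine List.mem_map.2 ⟨ptz (l1 ++ [c']) + z, g5 z hz, ?_⟩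
          rw [List.cons_append, ptz_cons]
          ring
      · cases a with
        | nil =>
          rw [List.nil_append] at hb
          rw [List.append_nil] at ha
          obtain ⟨v', y', h4, h5, h6⟩ := List.map_eq_cons_iff.1 hb.symm
          obtain ⟨l1, c', l2, u, g1, g2, g3, g4, g5⟩ := ih hm [] v' y' (by rw [h4]; rfl)
          have hl1 : l1 = [] := by
            by_contra hne
            obtain ⟨d, l1', rfl⟩ := List.exists_cons_of_ne_nil hne
            have := g4 (0, 0) (mem_VL_cons.2 (Or.inl (head_mem _ _ _)))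
            simp at this
          subst hl1
          refine ⟨[c], c', l2, u, by rw [g1]; rfl, g2, ?_, ?_, ?_⟩
          · rw [← h5, g3, ptz_cons, ptz_nil]
            ring
          · intro z hz
            rw [← ha]
            rcases mem_VL_cons.1 hz with hz | ⟨w, hw, rfl⟩
            · exact hz
            · rw [VL_nil] at hw
              exact absurd hw (Set.notMem_empty _)
          · intro z hz
            rw [← h6]
            refine List.mem_map.2 ⟨ptz ([] ++ [c']) + z, g5 z hz, ?_⟩
            rw [List.nil_append, List.singleton_append, ptz_cons c]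
            ring
        | cons w a =>
          rw [List.cons_append, List.cons.injEq] at hb
          obtain ⟨hb1, hb2⟩ := hb
          subst hb1
          refine ⟨[], c, m, v, rfl, ?_, by rw [ptz_nil, zero_add], ?_, ?_⟩
          · rw [ha]; simp
          · rw [VL_nil]; intro z hz; exact absurd hz (Set.notMem_empty z)
          · intro z hz
            rw [hb2, List.nil_append]
            apply List.mem_append_right
            refine List.mem_map.2 ⟨z, (mem_VL_jn hm).1 hz, ?_⟩
            rw [ptz_cons, ptz_nil, add_zero]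

/-- The marked cut. -/
theorem mcut {k : ℕ} {q v : ℤ × ℤ} {β1 β2 : List (ℤ × ℤ)} (hnd : (β1 ++ v :: β2).Nodup) (hch : HChain (β1 ++ v :: β2))
    (hl : (β1 ++ v :: β2).getLast? = some q) (hq : (q.1 - q.2) % 3 = 0)
    (hb : ∀ z ∈ β1 ++ v :: β2, F0 q ≤ F0 z ∧ F0 z ≤ F0 q + 3 * k + 1)
    (hh : F0 ((β1 ++ v :: β2).headI) = F0 q + 3 * k + 1) :
    ∃ (l1 : List Blk) (c : Blk) (l2 : List Blk) (u : ℤ × ℤ), u ∈ V c.1 ∧ v = q + (ptz l1 + u) ∧ hj (l1 ++ c :: l2) = k + 1 ∧
      (V (jn (l1 ++ c :: l2))).reverse.map (fun z => q + z) = β1 ++ v :: β2 ∧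
      (∀ z ∈ VL l1, q + z ∈ β2) ∧ (∀ z ∈ VL l2, q + (ptz (l1 ++ [c]) + z) ∈ β1) ∧
      ln (l1 ++ c :: l2) = β1.length + β2.length + 1 := by
  set β := β1 ++ v :: β2 with hβ
  have hlen : β.length = β1.length + β2.length + 1 := by rw [hβ]; simp; ring
  have inj : Function.Injective (fun w : ℤ × ℤ => w - q) := fun x y h => by simpa using h
  have hW : β.map (fun w => w - q) ∈ W true (β1.length + β2.length) := by
    refine ⟨⟨by rw [List.length_map, hlen], hnd.map inj, ?_, ?_⟩, ?_⟩
    · unfold HChain at hch ⊢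
      rw [List.isChain_map]
      exact hch.imp fun _ _ h => sub_adj hq h
    · rw [List.getLast?_map, hl]
      simp only [Option.map_some, sub_self]
      rfl
    · intro w hw
      obtain ⟨x, hx, rfl⟩ := List.mem_map.1 hw
      intro _
      have := (hb x hx).1
      simp only [F0, Prod.fst_sub, Prod.snd_sub] at this ⊢
      omega
  obtain ⟨X, hX, hXV⟩ := walk_hw hW
  have hXm : ∀ z, z ∈ V X ↔ q + z ∈ β := by
    intro z
    rw [← List.mem_reverse, hXV, List.mem_map]
    constructor
    · rintro ⟨x, hx, rfl⟩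
      rwa [add_sub_cancel]
    · intro h
      exact ⟨q + z, h, by rw [add_sub_cancel_left]⟩
  have hE : q + E X = β.headI := by
    have h1 := toL_headI X
    have h2 : (toL X).headI = (V X).reverse.headI := by
      unfold toL
      have : (V X).reverse ≠ [] := by
        rw [hXV]
        intro h
        have := congrArg List.length h
        simp [hlen] at this
      obtain ⟨a, r, hr⟩ := List.exists_cons_of_ne_nil this
      rw [hr]
      rfl
    rw [h2, hXV] at h1
    have hne : β ≠ [] := by
      intro h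
      have := congrArg List.length h
      simp [hlen] at this
    obtain ⟨a, r, hr⟩ := List.exists_cons_of_ne_nil hne
    rw [hr] at h1 ⊢
    rw [← h1]
    simp
  have hBr : Br k X := by
    refine ⟨⟨hX.2.1, fun z hz => ?_⟩, ?_⟩
    · have h1 := hb _ ((hXm z).1 hz)
      rw [F0_add] at h1
      constructor <;> linarith [h1.1, h1.2]
    · rw [← hE, F0_add] at hh
      linarith
  obtain ⟨l, hl0, hjn, hj0⟩ := jn_surj hBr
  have hVX : V (jn l) = β2.reverse.map (fun w => w - q) ++ (v - q) :: β1.reverse.map (fun w => w - q) := by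
    rw [hjn, ← List.reverse_reverse (V X), hXV, hβ]
    simp
  obtain ⟨l1, c, l2, u, g1, g2, g3, g4, g5⟩ := vsplit l hl0 _ _ _ hVX
  refine ⟨l1, c, l2, u, g2, ?_, by rw [← g1]; exact hj0, ?_, ?_, ?_, ?_⟩
  · rw [← g3, add_sub_cancel]
  · rw [← g1, hjn, hXV, List.map_map]
    have : ((fun z : ℤ × ℤ => q + z) ∘ fun w => w - q) = id := by
      funext z
      simp
    rw [this, List.map_id]
  · intro z hz
    obtain ⟨w, hw, hwz⟩ := List.mem_map.1 (g4 z hz)
    rw [← hwz, add_sub_cancel]
    exact List.mem_reverse.1 hw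
  · intro z hz
    obtain ⟨w, hw, hwz⟩ := List.mem_map.1 (g5 z hz)
    rw [← hwz, add_sub_cancel]
    exact List.mem_reverse.1 hw
  · rw [← len_V_jn (by simp), ← g1, hjn]
    have := congrArg List.length hXV
    rw [List.length_reverse, List.length_map, hlen] at this
    exact this

end Pool.Agent.EVN.MC
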