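import Pool.Agent.EVN.P.Defs
import Pool.Agent.PLY.Main
import Pool.Agent.EVN.A.Rat

/-!
EVN block P, module Mass: POLYNOMIAL BOUND FOR THE ERROR TERMS.

PAPER PROOF. All paths `η` of `XL ∪ XR` (parameters `5 R`) have at most `961 R^2 + 1` vertices (the points `z` of `Bx (5 R)` are determined by `(F0 z, z.2)`, at most `(30 R + 1)^2 ≤ 961 R^2`), they are walks of `η.length - 1`
steps from `o` (latest vertex first), hence `mQ ≤ (sum over k ≤ 961 R^2 of xE^k a_k)^2`; `a_k ≤ C k^C μ^k` (`Pool.Agent.HEP.poly`, `xc = 1 / muL`: `muL_eq`), `a_0 = 1`. The number of lists of `k` steps is `a k`: `Hhelper14/SAW/Count`.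
`P_le_one`: `Pairs n` is contained in `Omega n ×ˢ Omega n` (finite).
-/

namespace Pool.Agent.EVN

open Pool.Agent.Hhelper14.SAW Pool.Agent.HHP Pool.Agent.HEP Pool.Agent.PLY.G Pool.Agent.BEX.F
open scoped ENNReal

private lemma Mass_len {R : ℕ} (hR : 1 ≤ R) {l : List (ℤ × ℤ)} (hl : l.Nodup) (hb : ∀ z ∈ l, z ∈ Bx (5 * R)) :
    l.length ≤ 961 * R ^ 2 := by
  classical
  have h1 : l.toFinset.card ≤
      (Finset.Icc (-(15 * (R : ℤ))) (15 * R) ×ˢ Finset.Icc (-(15 * (R : ℤ))) (15 * R)).card := by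
    refine Finset.card_le_card_of_injOn (fun z => (F0 z, z.2)) ?_ ?_
    · intro z hz
      have hz' := hb z (by simpa using hz)
      obtain ⟨h2, h3⟩ := hz'
      rw [abs_le] at h2 h3
      push_cast at h2 h3
      simp only [Finset.coe_product, Finset.coe_Icc, Set.mem_prod, Set.mem_Icc]
      refine ⟨⟨?_, ?_⟩, ?_, ?_⟩ <;> linarith
    · rintro ⟨a, b⟩ _ ⟨c, d⟩ _ h
      simp only [F0, Prod.mk.injEq] at h ⊢
      omega
  rw [List.toFinset_card_of_nodup hl, Finset.card_product, Int.card_Icc] at h1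
  have h4 : (15 * (R : ℤ) + 1 - -(15 * (R : ℤ))).toNat = 30 * R + 1 := by omega
  rw [h4] at h1
  nlinarith

private lemma Mass_walk {R m m' : ℕ} (hR : 1 ≤ R) {η : List (ℤ × ℤ)}
    (h : η ∈ XL (5 * R) o (-(m : ℤ)) m' ∪ XR (5 * R) o (-(m : ℤ)) m') :
    ∃ k, k ≤ 961 * R ^ 2 ∧ IsWalk k η ∧ η.length - 1 = k := by
  rcases h with ⟨y, η', rfl, -, h2, h3, h4, -, h6⟩ | ⟨y, η', rfl, -, h2, h3, h4, -, h6⟩
  · exact ⟨η'.length, Mass_len hR (List.nodup_cons.1 h2).2 fun z hz => (h6 z hz).1,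
      ⟨by simp, h2, h3, h4⟩, by simp⟩
  · exact ⟨η'.length, Mass_len hR (List.nodup_cons.1 h2).2 fun z hz => (h6 z hz).1,
      ⟨by simp, h2, h3, h4⟩, by simp⟩

/-- the mass of the walks with at most `K` steps -/
private noncomputable def Mass_g (K : ℕ) (η : List (ℤ × ℤ)) : ℝ≥0∞ :=
  ∑ k ∈ Finset.range (K + 1), Set.indicator {P | IsWalk k P} (fun _ => xE ^ k) η

private lemma Mass_le_g {K k : ℕ} (hk : k ≤ K) {η : List (ℤ × ℤ)} (h : IsWalk k η) : xE ^ k ≤ Mass_g K η := by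
  unfold Mass_g
  refine le_trans (le_of_eq ?_) (Finset.single_le_sum (f := fun k => Set.indicator {P | IsWalk k P} (fun _ => xE ^ k) η)
    (fun _ _ => zero_le) (Finset.mem_range.2 (Nat.lt_succ_of_le hk)))
  exact (Set.indicator_of_mem (s := {P | IsWalk k P}) h (fun _ => xE ^ k)).symm

private lemma Mass_tsum_g (K : ℕ) : ∑' η, Mass_g K η = ∑ k ∈ Finset.range (K + 1), tE k := by
  unfold Mass_g
  rw [Summable.tsum_finsetSum fun _ _ => ENNReal.summable]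
  refine Finset.sum_congr rfl fun k _ => ?_
  rw [← tsum_subtype, ENNReal.tsum_set_const, tE, mul_comm, (walk_finite k).encard_eq_coe_toFinset_card]
  unfold an
  rw [Set.ncard_eq_toFinset_card _ (walk_finite k)]
  simp

theorem mQ_le : ∃ C K0 : ℕ, ∀ R m m' : ℕ, 1 ≤ R → mQ (QA (5 * R) m m') ≤ C * (R : ℝ≥0∞) ^ K0 := by
  obtain ⟨C, K, hC⟩ := tE_poly
  refine ⟨C ^ 2 * 962 ^ (2 * (K + 1)), 4 * (K + 1), fun R m m' hR => ?_⟩
  have hQ : mQ (QA (5 * R) m m') ≤ (∑' η, Mass_g (961 * R ^ 2) η) ^ 2 := by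
    unfold mQ
    calc ∑' q : QA (5 * R) m m', xE ^ (q.1.1.length - 1) * xE ^ (q.1.2.length - 1)
        ≤ ∑' q : QA (5 * R) m m', Mass_g (961 * R ^ 2) q.1.1 * Mass_g (961 * R ^ 2) q.1.2 := by
          refine ENNReal.tsum_le_tsum fun q => ?_
          obtain ⟨k, hk, hw, he⟩ := Mass_walk hR q.2.1
          obtain ⟨k', hk', hw', he'⟩ := Mass_walk hR q.2.2.1
          rw [he, he']
          exact mul_le_mul' (Mass_le_g hk hw) (Mass_le_g hk' hw')
      _ ≤ ∑' q : List (ℤ × ℤ) × List (ℤ × ℤ), Mass_g (961 * R ^ 2) q.1 * Mass_g (961 * R ^ 2) q.2 :=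
          ENNReal.tsum_comp_le_tsum_of_injective Subtype.val_injective
            (fun q : List (ℤ × ℤ) × List (ℤ × ℤ) => Mass_g (961 * R ^ 2) q.1 * Mass_g (961 * R ^ 2) q.2)
      _ = (∑' η, Mass_g (961 * R ^ 2) η) ^ 2 := by
          rw [ENNReal.tsum_prod (f := fun η η' => Mass_g (961 * R ^ 2) η * Mass_g (961 * R ^ 2) η')]
          simp_rw [ENNReal.tsum_mul_left, ENNReal.tsum_mul_right]
          exact (pow_two _).symm
  have hR' : (1 : ℝ≥0∞) ≤ (R : ℝ≥0∞) ^ 2 := by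
    have : 1 ≤ R ^ 2 := Nat.one_le_pow _ _ hR
    exact_mod_cast this
  have hS : ∑' η, Mass_g (961 * R ^ 2) η ≤ C * (962 * (R : ℝ≥0∞) ^ 2) ^ (K + 1) := by
    rw [Mass_tsum_g]
    calc ∑ k ∈ Finset.range (961 * R ^ 2 + 1), tE k
        ≤ ∑ k ∈ Finset.range (961 * R ^ 2 + 1), C * (962 * (R : ℝ≥0∞) ^ 2) ^ K := by
          refine Finset.sum_le_sum fun k hk => (hC k).trans ?_
          gcongr
          rw [Finset.mem_range] at hk
          calc (k : ℝ≥0∞) + 1 ≤ 961 * (R : ℝ≥0∞) ^ 2 + 1 := by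
                gcongr
                exact_mod_cast Nat.lt_succ_iff.1 hk
            _ ≤ 961 * (R : ℝ≥0∞) ^ 2 + (R : ℝ≥0∞) ^ 2 := by gcongr
            _ = 962 * (R : ℝ≥0∞) ^ 2 := by ring
      _ = (961 * (R : ℝ≥0∞) ^ 2 + 1) * (C * (962 * (R : ℝ≥0∞) ^ 2) ^ K) := by
          rw [Finset.sum_const, Finset.card_range, nsmul_eq_mul]
          push_cast
          ring
      _ ≤ (961 * (R : ℝ≥0∞) ^ 2 + (R : ℝ≥0∞) ^ 2) * (C * (962 * (R : ℝ≥0∞) ^ 2) ^ K) := by gcongr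
      _ = C * (962 * (R : ℝ≥0∞) ^ 2) ^ (K + 1) := by ring
  calc mQ (QA (5 * R) m m') ≤ (∑' η, Mass_g (961 * R ^ 2) η) ^ 2 := hQ
    _ ≤ (C * (962 * (R : ℝ≥0∞) ^ 2) ^ (K + 1)) ^ 2 := by gcongr
    _ = _ := by
        push_cast
        rw [mul_pow, ← pow_mul, mul_pow, ← pow_mul]
        rw [show (K + 1) * 2 = 2 * (K + 1) by ring, show 2 * (2 * (K + 1)) = 4 * (K + 1) by ring]
        ring

/-- The probability is at most `1`. -/
theorem P_le_one (n : ℕ) : ENNReal.ofReal (Pool.Agent.Hhelper14.Honeycomb.P n) ≤ 1 := by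
  rw [ENNReal.ofReal_le_one]
  unfold Pool.Agent.Hhelper14.Honeycomb.P
  rcases Nat.eq_zero_or_pos (Pool.Agent.Hhelper14.Honeycomb.a n) with h0 | h0
  · rw [h0]
    simp
  · have hfin : (Pool.Agent.Hhelper14.Honeycomb.Omega n).Finite :=
      Set.finite_of_ncard_pos h0
    have h1 : (Pool.Agent.Hhelper14.Honeycomb.Pairs n).ncard ≤ Pool.Agent.Hhelper14.Honeycomb.a n ^ 2 := by
      rw [pow_two]
      unfold Pool.Agent.Hhelper14.Honeycomb.a
      rw [← Set.ncard_prod]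
      exact Set.ncard_le_ncard (fun q hq => ⟨hq.1, hq.2.1⟩) (hfin.prod hfin)
    rw [div_le_one (by positivity)]
    exact_mod_cast h1

end Pool.Agent.EVN
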