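import Pool.Agent.EVN.Stmt
import Pool.Agent.EVN.P.MCut
import Pool.Agent.EVN.A.Walks

/-!
Project EVN, block P (helper46): the word walked backwards, the functional at the end of a word.
-/

namespace Pool.Agent.EVN.Sm

open Pool.Agent.EVN Pool.Agent.EVN.MC
open Pool.Agent.Hhelper14.SAW Pool.Agent.HHP Pool.Agent.HEP Pool.Agent.PLY.G Pool.Agent.BEX.F
open scoped ENNReal

lemma adj_symm {x y : ℤ × ℤ} (h : Adj x y) : Adj y x := by
  obtain ⟨h1, h2, h3⟩ := h
  refine ⟨h2, h1, ?_⟩
  obtain ⟨a, b⟩ := x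
  obtain ⟨c, d⟩ := y
  simp only [U, Prod.mk_sub_mk] at h3 ⊢
  omega

lemma hchain_reverse {w : List (ℤ × ℤ)} (h : HChain w) : HChain w.reverse := by
  show List.IsChain Adj w.reverse
  rw [List.isChain_reverse]
  exact List.IsChain.imp (fun _ _ h => adj_symm h) h

lemma hon_of_chain {w : List (ℤ × ℤ)} (h : HChain w) (h2 : 2 ≤ w.length) : ∀ z ∈ w, hon z := by
  induction w with
  | nil => simp at h2
  | cons x w ih =>
    match w, h2 with
    | y :: r, _ =>
      have h3 := List.isChain_cons_cons.1 h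
      intro z hz
      rcases List.mem_cons.1 hz with rfl | hz
      · exact h3.1.1
      · match r with
        | [] =>
          rw [List.mem_singleton] at hz
          rw [hz]; exact h3.1.2.1
        | t :: r => exact ih h3.2 (by simp) z hz

lemma hon_sub {q z : ℤ × ℤ} (hq : (q.1 - q.2) % 3 = 0) (hz : hon z) : hon (z - q) := by
  unfold hon at *
  rw [Prod.fst_sub, Prod.snd_sub]
  omega

lemma hon_add {q z : ℤ × ℤ} (hq : (q.1 - q.2) % 3 = 0) (hz : hon z) : hon (q + z) := by
  unfold hon at *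
  rw [Prod.fst_add, Prod.snd_add]
  omega

/-! ### the word walked backwards -/

lemma E_jn {l : List Blk} (hl : l ≠ []) : E (jn l) = ptz l + (-1, 0) := by
  induction l with
  | nil => exact absurd rfl hl
  | cons c l ih =>
    by_cases h : l = []
    · subst h
      rw [jn_single, ptz_cons, ptz_nil]
      ext <;> simp
    · rw [jn_cons h, (app_right (Q := jn l) c.2.br.tn_rt).2.1, ih h, ptz_cons]
      ring

/-- The vertices of the word walked backwards: `ro` after the translation which takes `ptz l` to `o`. -/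
theorem mem_rvl {l : List Blk} {z : ℤ × ℤ} (h : z ∈ VL (rvl l)) : ptz l + (-1, 0) - z ∈ VL l := by
  by_cases hl : l = []
  · subst hl
    simp [rvl, VL] at h
  · have h1 : rvl l ≠ [] := by
      unfold rvl
      simpa using hl
    rw [mem_VL_jn h1] at h
    rw [mem_VL_jn hl, ← E_jn hl]
    unfold rvl at h
    rw [jn_rv hl] at h
    exact ((rvb_br (jn_Br hl)).2.2.2.2 z).1 h

lemma rvl_rvl (l : List Blk) : rvl (rvl l) = l := by
  unfold rvl
  rw [List.map_reverse, List.map_map, List.reverse_reverse]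
  conv_rhs => rw [← List.map_id l]
  refine List.map_congr_left fun c _ => ?_
  simp [rvB_rvB]

lemma hj_rvl (l : List Blk) : hj (rvl l) = hj l := by
  unfold rvl hj
  rw [List.map_reverse, List.sum_reverse, List.map_map]
  congr 1
  refine List.map_congr_left fun c _ => ?_
  simp [htw_rvB]

lemma ln_rvl (l : List Blk) : ln (rvl l) = ln l := by
  unfold rvl ln
  rw [List.map_reverse, List.sum_reverse, List.map_map]
  congr 1
  refine List.map_congr_left fun c _ => ?_
  simp [len_rvB]

lemma wj_eq_ln (l : List Blk) : wj l = xE ^ ln l := by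
  induction l with
  | nil => simp [wj_nil, ln]
  | cons c l ih =>
    rw [wj_cons, ih, ← pow_add]
    congr 1

lemma wj_rvl (l : List Blk) : wj (rvl l) = wj l := by
  rw [wj_eq_ln, wj_eq_ln, ln_rvl]

lemma rvl_bij : Function.Bijective rvl := Function.Involutive.bijective rvl_rvl

/-- Sums over words walked backwards. -/
lemma tsum_rvl (f : List Blk → ℝ≥0∞) : ∑' l, f (rvl l) = ∑' l, f l :=
  (Equiv.ofBijective rvl rvl_bij).tsum_eq f

/-- The mass of the words of height `k` with the functional at their far end. -/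
lemma ak_rv (𝓛 : Law) (L k : ℕ) :
    ∑' l : List Blk, ind (hj l = k ∧ ln l ≤ L) * (wj l * 𝓛.av (VL (rvl l))) = ak 𝓛 L k := by
  unfold ak
  rw [← tsum_rvl]
  refine tsum_congr fun l => ?_
  rw [hj_rvl, ln_rvl, wj_rvl, rvl_rvl]



lemma ev_anti {n J : ℕ} {v : ℤ × ℤ} (hv : hon v) {S T : Set (ℤ × ℤ)} (h : S ⊆ T) : ev n J v T ≤ ev n J v S := by
  unfold ev
  refine ENNReal.div_le_div_right (Finset.sum_le_sum fun j _ => mul_le_mul_right ?_ _) _
  exact_mod_cast Wa_anti hv (n - j) h

/-- The functional at the point `y` after the end of the word `l` which starts at `q`. -/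
theorem ev_right (hs : ASym) {n J : ℕ} {𝓛 : Law} (hev : ∀ S, ev n J o' S ≤ 2 * 𝓛.av S) {y q : ℤ × ℤ} (hy : F0 y % 3 = 0)
    {l : List Blk} (hq : y = q + ptz l) {S : Set (ℤ × ℤ)} (hS : ∀ z ∈ VL l, q + z ∈ S) : ev n J y S ≤ 2 * er 𝓛 l := by
  have h0 : (y.1 - y.2) % 3 = 0 := by
    unfold F0 at hy
    omega
  have hy' : hon y := by
    unfold hon
    omega
  have h1 : ev n J (y - y) ((fun z : ℤ × ℤ => z - y) '' S) = ev n J y S := by
    have := hs n J _ (Sy.tr (-y.1) (-y.2) (by omega)) y S hy'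
    rw [← this]
    refine congrArg₂ (ev n J) ?_ ?_
    · exact sub_eq_add_neg y y
    · refine Set.image_congr' fun z => ?_
      exact sub_eq_add_neg z y
  rw [sub_self] at h1
  have h2 := hs n J _ Sy.ro 0 ((fun z : ℤ × ℤ => z - y) '' S) (by decide)
  rw [← h1, ← h2]
  have h3 : ((-1, 0) - 0 : ℤ × ℤ) = o' := by decide
  show ev n J ((-1, 0) - 0) _ ≤ _
  rw [h3]
  refine le_trans (ev_anti (by decide) (S := VL (rvl l)) ?_) (hev _)
  intro z hz
  have h4 := hS _ (mem_rvl hz)
  refine ⟨(-1, 0) - z, ⟨_, h4, ?_⟩, ?_⟩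
  · rw [hq]
    ring
  · ring

end Pool.Agent.EVN.Sm
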