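import Pool.Agent.EVN.P.Ex
import Pool.Agent.EVN.P.Mass
import Pool.Agent.EVN.P.Ev
import Pool.Agent.EVN.A.Pair

/-!
EVN block P, module Up (helper96): `PUp` from `AUp` and `ASym`.

PAPER PROOF. `K = (30 R + 1)^2`. If `K > J` the claim is trivial (`PP ≤ 1`, `R^K0 / J`). Otherwise `AUp` with `Q` = the pairs of
beginnings of at most `K` steps which lie in `QA (5 R) m m'` after one of the three rotations (`three_dir`, `ex_beg`;
`n - i ≥ n - J ≥ K` by `Adm`). The sum over `Q` is at most three times the sum over `QA` (`exs_sym`). With `δ = C K / J`: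
`(u1 (e1 + δ)) (u2 (e2 + δ)) ≤ u1 e1 u2 e2 + δ (2 + δ) u1 u2` (`ev_le_one`), `δ ≤ C`, `mQ_le`.
-/

namespace Pool.Agent.EVN.UpN

open Pool.Agent.Hhelper14.SAW Pool.Agent.HHP Pool.Agent.HEP Pool.Agent.PLY.G Pool.Agent.BEX.F
open scoped ENNReal

lemma beg_hon {K : ℕ} {η : List (ℤ × ℤ)} (h : Beg o K η) : hon η.headI := by
  obtain ⟨h1, -, -, h4, -⟩ := h
  match η, h1, h4 with
  | x :: y :: r, _, h4 => exact (List.isChain_cons_cons.mp h4).1.1

lemma map_head_tail {g : (ℤ × ℤ) → (ℤ × ℤ)} {η : List (ℤ × ℤ)} (h : 2 ≤ η.length) :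
    (η.map g).headI = g η.headI ∧ {z | z ∈ (η.map g).tail} = g '' {z | z ∈ η.tail} := by
  match η, h with
  | x :: y :: r, _ =>
    refine ⟨rfl, ?_⟩
    ext z
    simp only [List.map_cons, List.tail_cons, Set.mem_image, List.mem_cons,
      Set.mem_ofPred_eq, List.mem_map]
    constructor
    · rintro (h | ⟨u, hu, rfl⟩)
      · exact ⟨y, Or.inl rfl, h.symm⟩
      · exact ⟨u, Or.inr hu, rfl⟩
    · rintro ⟨u, hu | hu, rfl⟩
      · left; rw [hu]
      · right; exact ⟨u, hu, rfl⟩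

lemma exs_sym (hS : ASym) (n J : ℕ) (i : Fin 3) {K : ℕ} {η : List (ℤ × ℤ)} (h : Beg o K η) :
    ev n J (η.map (rt3 i)).headI {z | z ∈ (η.map (rt3 i)).tail} = ev n J η.headI {z | z ∈ η.tail} := by
  obtain ⟨h1, h2⟩ := map_head_tail (g := rt3 i) h.1
  rw [h1, h2]
  have hh := beg_hon h
  have hLL : ∀ (v : ℤ × ℤ) (S : Set (ℤ × ℤ)), hon v → ev n J (L (L v)) ((fun z => L (L z)) '' S) = ev n J v S :=
    fun v S hv => hS n J _ Sy.ro3 v S hv
  match i with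
  | 0 => simp [rt3]
  | 1 => exact hLL _ _ hh
  | 2 =>
    have h3 : hon (L (L η.headI)) := by
      generalize η.headI = v at hh
      obtain ⟨p, q⟩ := v
      simp only [hon, L] at *
      omega
    have h4 := hLL (L (L η.headI)) ((fun z => L (L z)) '' {z | z ∈ η.tail}) h3
    rw [hLL _ _ hh, ← Set.image_comp] at h4
    exact h4

/-- The value with the error. -/
noncomputable def Gv (n n' J : ℕ) (δ : ℝ≥0∞) (q : List (ℤ × ℤ) × List (ℤ × ℤ)) : ℝ≥0∞ :=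
  (xE ^ (q.1.length - 1) * (ev n J q.1.headI {z | z ∈ q.1.tail} + δ)) *
    (xE ^ (q.2.length - 1) * (ev n' J q.2.headI {z | z ∈ q.2.tail} + δ))

/-- The set of pairs for `AUp`. -/
def QQ (K : ℕ) (X : Set (List (ℤ × ℤ) × List (ℤ × ℤ))) : Set (List (ℤ × ℤ) × List (ℤ × ℤ)) :=
  {q | Beg o K q.1 ∧ Beg o K q.2 ∧ ∃ i : Fin 3, (q.1.map (rt3 i), q.2.map (rt3 i)) ∈ X}

lemma QQ_sum (hS : ASym) (n n' J K : ℕ) (X : Set (List (ℤ × ℤ) × List (ℤ × ℤ))) (δ : ℝ≥0∞) :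
    ∑' q : QQ K X, Gv n n' J δ q.1 ≤ 3 * ∑' q : X, Gv n n' J δ q.1 := by
  classical
  let i : QQ K X → Fin 3 := fun q => q.2.2.2.choose
  have hi : ∀ q : QQ K X, (q.1.1.map (rt3 (i q)), q.1.2.map (rt3 (i q))) ∈ X :=
    fun q => q.2.2.2.choose_spec
  let f : QQ K X → Fin 3 × X := fun q => (i q, ⟨_, hi q⟩)
  have hf : Function.Injective f := by
    intro x y hxy
    have h1 : i x = i y := congrArg Prod.fst hxy
    have h2 : (f x).2.1 = (f y).2.1 := by rw [hxy]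
    have h3 : x.1.1.map (rt3 (i x)) = y.1.1.map (rt3 (i y)) := congrArg Prod.fst h2
    have h4 : x.1.2.map (rt3 (i x)) = y.1.2.map (rt3 (i y)) := congrArg Prod.snd h2
    rw [h1] at h3 h4
    exact Subtype.ext (Prod.ext (List.map_injective_iff.mpr (rt3_inj _) h3)
      (List.map_injective_iff.mpr (rt3_inj _) h4))
  have hG : ∀ q : QQ K X, Gv n n' J δ q.1 = (fun p : Fin 3 × X => Gv n n' J δ p.2.1) (f q) := by
    intro q
    simp only [f, Gv, List.length_map]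
    rw [exs_sym hS n J (i q) q.2.1, exs_sym hS n' J (i q) q.2.2.1]
  calc ∑' q : QQ K X, Gv n n' J δ q.1
      = ∑' q : QQ K X, (fun p : Fin 3 × X => Gv n n' J δ p.2.1) (f q) := by
        exact tsum_congr hG
    _ ≤ ∑' p : Fin 3 × X, Gv n n' J δ p.2.1 := ENNReal.tsum_comp_le_tsum_of_injective hf _
    _ = ∑' _i : Fin 3, ∑' q : X, Gv n n' J δ q.1 :=
        ENNReal.tsum_prod (f := fun (_ : Fin 3) (q : X) => Gv n n' J δ q.1)
    _ = 3 * ∑' q : X, Gv n n' J δ q.1 := by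
        rw [tsum_fintype, Finset.sum_const, Finset.card_univ, Fintype.card_fin, nsmul_eq_mul]
        norm_num

lemma ex_sub {D m m' : ℕ} {η : List (ℤ × ℤ)} (h : η ∈ Ex o D (-(m : ℤ)) ((m' : ℤ) - 1)) :
    η ∈ XL D o (-(m : ℤ)) m' ∪ XR D o (-(m : ℤ)) m' := by
  rcases h with ⟨z, r, h1, h2, h3, h4, h5, h6⟩ | ⟨z, r, h1, h2, h3, h4, h5, h6⟩
  · right
    refine ⟨z + (1, 0), z :: r, h1, by simp, h3, h4, h5, ?_, ?_⟩
    · simp only [F0, Prod.fst_add, Prod.snd_add] at h2 ⊢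
      omega
    · intro u hu
      obtain ⟨g1, g2, g3⟩ := h6 u hu
      exact ⟨g1, g2, by omega⟩
  · left
    refine ⟨z + (-1, 0), z :: r, h1, by simp, h3, h4, h5, ?_, ?_⟩
    · simp only [F0, Prod.fst_add, Prod.snd_add] at h2 ⊢
      omega
    · intro u hu
      obtain ⟨g1, g2, g3⟩ := h6 u hu
      exact ⟨g1, g2, by omega⟩

lemma xlr_hon {D : ℕ} {v : ℤ × ℤ} {a b : ℤ} {η : List (ℤ × ℤ)} (h : η ∈ XL D v a b ∪ XR D v a b) :
    hon η.headI := by
  rcases h with ⟨y, η', h1, h2, h3, h4, -⟩ | ⟨y, η', h1, h2, h3, h4, -⟩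
  all_goals
    subst h1
    match η', h2, h4 with
    | z :: r, _, h4 => exact (List.isChain_cons_cons.mp h4).1.1

lemma Gv_le (hS : ASym) {n n' J D m m' : ℕ} {δ : ℝ≥0∞} (q : QA D m m') :
    Gv n n' J δ q.1 ≤ uf n J q.1.1 * uf n' J q.1.2 +
      (2 * δ + δ ^ 2) * (xE ^ (q.1.1.length - 1) * xE ^ (q.1.2.length - 1)) := by
  have h1 := Pg.ev_le_one hS n J (xlr_hon q.2.1) {z | z ∈ q.1.1.tail}
  have h2 := Pg.ev_le_one hS n' J (xlr_hon q.2.2.1) {z | z ∈ q.1.2.tail}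
  unfold Gv uf
  generalize ev n J q.1.1.headI {z | z ∈ q.1.1.tail} = e1 at *
  generalize ev n' J q.1.2.headI {z | z ∈ q.1.2.tail} = e2 at *
  generalize xE ^ (q.1.1.length - 1) = u1
  generalize xE ^ (q.1.2.length - 1) = u2
  calc u1 * (e1 + δ) * (u2 * (e2 + δ)) = u1 * e1 * (u2 * e2) + (e1 * δ + e2 * δ + δ ^ 2) * (u1 * u2) := by ring
    _ ≤ u1 * e1 * (u2 * e2) + (1 * δ + 1 * δ + δ ^ 2) * (u1 * u2) := by gcongr
    _ = u1 * e1 * (u2 * e2) + (2 * δ + δ ^ 2) * (u1 * u2) := by ring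

lemma PP_le_one (n n' : ℕ) : PP n n' ≤ 1 := by
  unfold PP
  refine ENNReal.div_le_of_le_mul ?_
  rw [one_mul]
  have h1 : an (n + n') ≤ an n * an n' := by
    rw [← DP_ncard]
    have h2 : DP n n' ⊆ {P | IsWalk n P} ×ˢ {P | IsWalk n' P} := fun q hq => ⟨hq.1, hq.2.1⟩
    refine (Set.ncard_le_ncard h2 ((walk_finite n).prod (walk_finite n'))).trans ?_
    rw [Set.ncard_prod]
    exact le_rfl
  exact_mod_cast h1

end Pool.Agent.EVN.UpN

namespace Pool.Agent.EVN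

open Pool.Agent.Hhelper14.SAW Pool.Agent.HHP Pool.Agent.HEP Pool.Agent.PLY.G Pool.Agent.BEX.F
open scoped ENNReal
open UpN

theorem up (hs : ASym) (hU : AUp) : PUp := by
  obtain ⟨CA, n0, hA⟩ := hU
  obtain ⟨Cm, Km, hm⟩ := mQ_le
  set Cc : ℕ := (2 + CA) * CA * 961 * Cm + 961 with hCc
  refine ⟨3 * CA * (1 + Cc) + Cc, Km + 2, n0, ?_⟩
  intro n n' J R m m' hadm hnn hR hRm hm2 hRm' hm2'
  obtain ⟨hn0, hJ, hJn⟩ := hadm
  set K : ℕ := (6 * (5 * R) + 1) ^ 2 with hK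
  have hKR : K ≤ 961 * R ^ 2 := by
    rw [hK]
    have : 6 * (5 * R) + 1 ≤ 31 * R := by omega
    calc (6 * (5 * R) + 1) ^ 2 ≤ (31 * R) ^ 2 := Nat.pow_le_pow_left this 2
      _ = 961 * R ^ 2 := by ring
  have hR1 : (1 : ℝ≥0∞) ≤ R := by exact_mod_cast hR
  have hJ0 : (J : ℝ≥0∞) ≠ 0 := by exact_mod_cast (by omega : J ≠ 0)
  have hJt : (J : ℝ≥0∞) ≠ ⊤ := ENNReal.natCast_ne_top J
  have hpow : (R : ℝ≥0∞) ^ 2 ≤ (R : ℝ≥0∞) ^ (Km + 2) := pow_le_pow_right₀ hR1 (by omega)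
  rcases Nat.lt_or_ge J K with hJK | hJK
  · -- trivial case
    have h1 : (1 : ℝ≥0∞) ≤ 961 * ((R : ℝ≥0∞) ^ (Km + 2) / J) := by
      rw [← mul_div_assoc, ENNReal.le_div_iff_mul_le (Or.inl hJ0) (Or.inl hJt), one_mul]
      calc (J : ℝ≥0∞) ≤ ((961 * R ^ 2 : ℕ) : ℝ≥0∞) := by exact_mod_cast (by omega : J ≤ 961 * R ^ 2)
        _ = 961 * (R : ℝ≥0∞) ^ 2 := by push_cast; rfl
        _ ≤ _ := by gcongr
    calc PP n n' ≤ 1 := PP_le_one n n'
      _ ≤ 961 * ((R : ℝ≥0∞) ^ (Km + 2) / J) := h1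
      _ ≤ ((3 * CA * (1 + Cc) + Cc : ℕ) : ℝ≥0∞) *
          (SQ n n' J (QA (5 * R) m m') + (R : ℝ≥0∞) ^ (Km + 2) / J) := by
          refine mul_le_mul' ?_ le_add_self
          have : 961 ≤ 3 * CA * (1 + Cc) + Cc := by
            have : 961 ≤ Cc := by rw [hCc]; exact Nat.le_add_left _ _
            exact this.trans (Nat.le_add_left _ _)
          exact_mod_cast this
  · -- main case
    set X := QA (5 * R) m m' with hX
    have hcov : ∀ i j : ℕ, i < J → j < J → ∀ w ∈ Wk o (n - i), ∀ w' ∈ Wk o (n' - j),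
        (∀ z ∈ w, z ∈ w' → z = o) → ∃ q ∈ QQ K X, ∃ t t', w = t ++ q.1 ∧ w' = t' ++ q.2 := by
      intro i j hi hj w hw w' hw' hd
      have hnJ : 2 * J ≤ n := by
        have : J ≤ J ^ 5 := Nat.le_self_pow (by norm_num) J
        omega
      obtain ⟨r, ⟨t, η, e1, g1⟩, ⟨t', η', e2, g2⟩⟩ := three_dir (D := 5 * R) (a := -(m : ℤ))
        (b := (m' : ℤ) - 1) (by push_cast; omega) (by omega) (by omega) (by push_cast; omega) hw hw'
        (by omega) (by omega)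
      obtain ⟨s, q1, es, ms, mq⟩ := List.map_eq_append_iff.mp e1
      obtain ⟨s', q2, es', ms', mq'⟩ := List.map_eq_append_iff.mp e2
      have b1 : Beg o K q1 := by
        have hb1 := ex_beg g1
        rw [← mq] at hb1
        obtain ⟨c1, c2, -, -, -⟩ := hb1
        rw [List.length_map] at c1 c2
        rw [es] at hw
        obtain ⟨-, d2, d3, d4⟩ := hw
        refine ⟨c1, c2, (List.nodup_append.mp d2).2.1, (List.isChain_append.mp d3).2.1, ?_⟩
        rwa [List.getLast?_append_of_ne_nil _ (by intro h; rw [h] at c1; simp at c1)] at d4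
      have b2 : Beg o K q2 := by
        have hb1 := ex_beg g2
        rw [← mq'] at hb1
        obtain ⟨c1, c2, -, -, -⟩ := hb1
        rw [List.length_map] at c1 c2
        rw [es'] at hw'
        obtain ⟨-, d2, d3, d4⟩ := hw'
        refine ⟨c1, c2, (List.nodup_append.mp d2).2.1, (List.isChain_append.mp d3).2.1, ?_⟩
        rwa [List.getLast?_append_of_ne_nil _ (by intro h; rw [h] at c1; simp at c1)] at d4
      refine ⟨(q1, q2), ⟨b1, b2, r, ?_⟩, s, s', es, es'⟩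
      refine ⟨by rw [mq]; exact ex_sub g1, by rw [mq']; exact ex_sub g2, ?_⟩
      intro z hz hz'
      obtain ⟨x, hx, rfl⟩ := List.mem_map.mp (List.mem_of_mem_tail hz)
      obtain ⟨y, hy, hxy⟩ := List.mem_map.mp (List.mem_of_mem_tail hz')
      have hxy' := rt3_inj r hxy
      subst hxy'
      have : y = o := hd y (by rw [es]; exact List.mem_append_right _ hx)
        (by rw [es']; exact List.mem_append_right _ hy)
      rw [this, rt3_o]
    have h1 := hA n n' J K ⟨hn0, hJ, hJn⟩ hnn hJK (QQ K X) (fun q hq => ⟨hq.1, hq.2.1⟩) hcov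
    set δ : ℝ≥0∞ := CA * (K / J) with hδ
    have hKJ : (K : ℝ≥0∞) / J ≤ 1 := by
      rw [ENNReal.div_le_iff hJ0 hJt, one_mul]
      exact_mod_cast hJK
    have hMb : mQ X ≤ Cm * (R : ℝ≥0∞) ^ Km := hm R m m' hR
    have h2 : ∑' q : X, Gv n n' J δ q.1 ≤ SQ n n' J X + (2 * δ + δ ^ 2) * mQ X := by
      calc ∑' q : X, Gv n n' J δ q.1
          ≤ ∑' q : X, (uf n J q.1.1 * uf n' J q.1.2 +
              (2 * δ + δ ^ 2) * (xE ^ (q.1.1.length - 1) * xE ^ (q.1.2.length - 1))) :=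
            ENNReal.tsum_le_tsum fun q => Gv_le hs q
        _ = _ := by
            rw [ENNReal.tsum_add, ENNReal.tsum_mul_left]
            rfl
    have hδ2 : 2 * δ + δ ^ 2 ≤ ((2 + CA) * CA * 961 : ℕ) * ((R : ℝ≥0∞) ^ 2 / J) := by
      have h3 : δ ≤ CA := by
        rw [hδ]
        calc (CA : ℝ≥0∞) * (K / J) ≤ CA * 1 := by gcongr
          _ = CA := mul_one _
      have h4 : δ ≤ CA * (961 * ((R : ℝ≥0∞) ^ 2 / J)) := by
        rw [hδ]
        gcongr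
        rw [← mul_div_assoc]
        gcongr
        exact_mod_cast hKR
      calc 2 * δ + δ ^ 2 = (2 + δ) * δ := by ring
        _ ≤ (2 + CA) * (CA * (961 * ((R : ℝ≥0∞) ^ 2 / J))) := by gcongr
        _ = _ := by push_cast; ring
    have h5 : (2 * δ + δ ^ 2) * mQ X ≤ (Cc : ℝ≥0∞) * ((R : ℝ≥0∞) ^ (Km + 2) / J) := by
      calc (2 * δ + δ ^ 2) * mQ X
          ≤ (((2 + CA) * CA * 961 : ℕ) * ((R : ℝ≥0∞) ^ 2 / J)) * (Cm * (R : ℝ≥0∞) ^ Km) := by gcongr
        _ = (((2 + CA) * CA * 961 * Cm : ℕ) : ℝ≥0∞) * ((R : ℝ≥0∞) ^ (Km + 2) / J) := by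
            rw [div_eq_mul_inv, div_eq_mul_inv, pow_add]
            push_cast
            ring
        _ ≤ _ := by
            gcongr
            rw [hCc]
            exact Nat.le_add_right _ _
    have h6 : ∑' q : QQ K X, Gv n n' J δ q.1 ≤
        3 * (SQ n n' J X + (Cc : ℝ≥0∞) * ((R : ℝ≥0∞) ^ (Km + 2) / J)) := by
      refine (QQ_sum hs n n' J K X δ).trans ?_
      gcongr
      exact h2.trans (by gcongr)
    have h7 : PP n n' ≤ CA * ∑' q : QQ K X, Gv n n' J δ q.1 := h1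
    refine h7.trans ?_
    set Z : ℝ≥0∞ := SQ n n' J X
    set Y : ℝ≥0∞ := (R : ℝ≥0∞) ^ (Km + 2) / J
    calc (CA : ℝ≥0∞) * ∑' q : QQ K X, Gv n n' J δ q.1 ≤ CA * (3 * (Z + Cc * Y)) := by gcongr
      _ ≤ CA * (3 * ((1 + Cc) * Z + (1 + Cc) * Y)) := by
          gcongr
          · calc Z = 1 * Z := (one_mul Z).symm
              _ ≤ (1 + Cc) * Z := by gcongr; exact le_self_add
          · exact le_add_self
      _ = (3 * CA * (1 + Cc)) * (Z + Y) := by ring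
      _ ≤ ((3 * CA * (1 + Cc) + Cc : ℕ) : ℝ≥0∞) * (Z + Y) := by
          gcongr
          push_cast
          exact le_self_add

end Pool.Agent.EVN
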